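import Mathlib
import Pool.Agent.helper16.Multibrot.Defs

/-!
# Misiurewicz parameters of modulus one

If `u = c ^ (n - 1)` is a primitive cube root of unity, `‖c‖ = 1` and `6 ∣ n`, the second point of
the critical orbit of `z ^ n + c` is a repelling fixed point; `c` is a limit of parameters for
which the critical orbit is periodic.
-/

set_option autoImplicit false
open Filter Topology Metric

namespace Pool.Agent.helper69.MB

open Pool.Agent.helper16.Multibrot

/-- the critical orbit. -/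
def X (n k : ℕ) (c : ℂ) : ℂ := (fun z : ℂ => z ^ n + c)^[k] 0

lemma X_zero (n : ℕ) (c : ℂ) : X n 0 c = 0 := rfl

lemma X_succ (n k : ℕ) (c : ℂ) : X n (k + 1) c = X n k c ^ n + c := by
  unfold X
  rw [Function.iterate_succ_apply']

lemma X_one {n : ℕ} (hn : n ≠ 0) (c : ℂ) : X n 1 c = c := by
  rw [X_succ, X_zero, zero_pow hn, zero_add]

lemma X_differentiable (n k : ℕ) : Differentiable ℂ (X n k) := by
  induction k with
  | zero => exact differentiable_const 0
  | succ k ih =>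
    have : X n (k + 1) = fun c => X n k c ^ n + c := by
      funext c; exact X_succ n k c
    rw [this]
    exact (ih.pow n).add differentiable_id

/-- a periodic critical orbit is a superattracting cycle. -/
lemma hyperbolic_of_X_eq_zero {n : ℕ} (hn : 2 ≤ n) {c : ℂ} {k : ℕ} (h : X n (k + 1) c = 0) :
    c ∈ hyperbolic n := by
  refine ⟨0, k + 1, Nat.succ_pos k, h, ?_⟩
  have h1 : (fun w : ℂ => w ^ n + c)^[k + 1] =
      (fun w : ℂ => w ^ n + c)^[k] ∘ (fun w : ℂ => w ^ n + c) := Function.iterate_succ _ _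
  have hf : ∀ z : ℂ, HasDerivAt (fun w : ℂ => w ^ n + c) ((n : ℂ) * z ^ (n - 1)) z := by
    intro z
    simpa using (hasDerivAt_pow n z).add_const c
  have hd : Differentiable ℂ (fun w : ℂ => w ^ n + c) := fun z => (hf z).differentiableAt
  have hdi : Differentiable ℂ ((fun w : ℂ => w ^ n + c)^[k]) := hd.iterate k
  have h2 : HasDerivAt ((fun w : ℂ => w ^ n + c)^[k] ∘ (fun w : ℂ => w ^ n + c))
      (deriv ((fun w : ℂ => w ^ n + c)^[k]) ((fun w : ℂ => w ^ n + c) 0) *
        ((n : ℂ) * 0 ^ (n - 1))) 0 :=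
    HasDerivAt.comp 0 (hdi _).hasDerivAt (hf 0)
  rw [h1, h2.deriv, zero_pow (by omega)]
  simp

/-- second order Taylor bound for the power. -/
lemma norm_taylor (w : ℂ) (n : ℕ) :
    ‖(1 + w) ^ n - 1 - n * w‖ ≤ (1 + ‖w‖) ^ n - 1 - n * ‖w‖ := by
  induction n with
  | zero => simp
  | succ k ih =>
    have e : (1 + w) ^ (k + 1) - 1 - ((k + 1 : ℕ) : ℂ) * w =
        (1 + w) * ((1 + w) ^ k - 1 - k * w) + k * w ^ 2 := by
      push_cast; ring
    have e2 : (1 + ‖w‖) ^ (k + 1) - 1 - ((k + 1 : ℕ) : ℝ) * ‖w‖ =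
        (1 + ‖w‖) * ((1 + ‖w‖) ^ k - 1 - k * ‖w‖) + k * ‖w‖ ^ 2 := by
      push_cast; ring
    rw [e, e2]
    refine (norm_add_le _ _).trans (add_le_add ?_ ?_)
    · rw [norm_mul]
      exact mul_le_mul ((norm_add_le _ _).trans (by simp)) ih (norm_nonneg _) (by positivity)
    · rw [norm_mul, norm_pow, Complex.norm_natCast]

lemma real_taylor {n : ℕ} {x : ℝ} (hx : 0 ≤ x) (hnx : (n : ℝ) * x ≤ 1) :
    (1 + x) ^ n - 1 - n * x ≤ ((n : ℝ) * x) ^ 2 := by
  have h1 : (1 + x) ^ n ≤ Real.exp (n * x) := by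
    rw [Real.exp_nat_mul]
    exact pow_le_pow_left₀ (by linarith) (by linarith [Real.add_one_le_exp x]) n
  have h0 : 0 ≤ (n : ℝ) * x := by positivity
  have h2 := (abs_le.mp (Real.abs_exp_sub_one_sub_id_le (x := n * x)
    (by rw [abs_of_nonneg h0]; exact hnx))).2
  linarith

lemma taylor_unit {n : ℕ} (hn : 1 ≤ n) {p d : ℂ} (hp : ‖p‖ = 1) (hd : (n : ℝ) * ‖d‖ ≤ 1) :
    ‖(p + d) ^ n - p ^ n - n * p ^ (n - 1) * d‖ ≤ ((n : ℝ) * ‖d‖) ^ 2 := by
  have hp0 : p ≠ 0 := by
    intro h; rw [h, norm_zero] at hp; exact zero_ne_one hp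
  have e : (p + d) ^ n - p ^ n - n * p ^ (n - 1) * d =
      p ^ n * ((1 + d / p) ^ n - 1 - n * (d / p)) := by
    have h1 : (p + d) ^ n = p ^ n * (1 + d / p) ^ n := by
      rw [← mul_pow]; congr 1; field_simp
    have h2 : p ^ n = p ^ (n - 1) * p := by
      rw [← pow_succ]; congr 1; omega
    rw [h1]
    have h3 : (n : ℂ) * p ^ (n - 1) * d = p ^ n * (n * (d / p)) := by
      rw [h2]; field_simp
    rw [h3]; ring
  rw [e, norm_mul, norm_pow, hp, one_pow, one_mul]
  have h4 : ‖d / p‖ = ‖d‖ := by rw [norm_div, hp, div_one]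
  refine (norm_taylor _ n).trans ?_
  rw [h4]
  exact real_taylor (norm_nonneg _) hd

/-- Linearisation of the critical orbit near a Misiurewicz parameter whose second point is a
repelling fixed point of modulus one. -/
lemma orbit_est {n : ℕ} (hn : 100 ≤ n) {c₀ p : ℂ} (hc₀ : ‖c₀‖ = 1) (hp : ‖p‖ = 1)
    (h2 : c₀ ^ n + c₀ = p) (hfix : p ^ n + c₀ = p) (j : ℕ) :
    ∃ a : ℂ, (n : ℝ) ^ (j + 1) / 2 + 1 ≤ ‖a‖ ∧ ‖a‖ ≤ 2 * (n : ℝ) ^ (j + 1) - 1 ∧
      ∀ η : ℂ, (n : ℝ) ^ (j + 1) * ‖η‖ ≤ 1 / 20 →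
        ‖X n (j + 2) (c₀ + η) - p - a * η‖ ≤ 5 * ((n : ℝ) ^ (j + 1) * ‖η‖) ^ 2 := by
  have hn100 : (100 : ℝ) ≤ n := by exact_mod_cast hn
  have hn0 : (0 : ℝ) < n := by linarith
  induction j with
  | zero =>
    refine ⟨1 + n * c₀ ^ (n - 1), ?_, ?_, ?_⟩
    · have h3 : ‖(n : ℂ) * c₀ ^ (n - 1)‖ = n := by
        rw [norm_mul, norm_pow, hc₀, one_pow, mul_one, Complex.norm_natCast]
      have h4 : ‖(n : ℂ) * c₀ ^ (n - 1)‖ - ‖(1 : ℂ)‖ ≤ ‖1 + (n : ℂ) * c₀ ^ (n - 1)‖ := by
        have := norm_sub_norm_le ((n : ℂ) * c₀ ^ (n - 1)) (-1)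
        rw [norm_neg] at this
        refine this.trans (le_of_eq ?_)
        congr 1; ring
      rw [h3, norm_one] at h4
      rw [zero_add, pow_one]
      linarith
    · have h3 : ‖(n : ℂ) * c₀ ^ (n - 1)‖ = n := by
        rw [norm_mul, norm_pow, hc₀, one_pow, mul_one, Complex.norm_natCast]
      refine (norm_add_le _ _).trans ?_
      rw [h3, norm_one, zero_add, pow_one]
      linarith
    · intro η hη
      rw [zero_add, pow_one] at hη ⊢
      have e : X n 2 (c₀ + η) - p - (1 + n * c₀ ^ (n - 1)) * η =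
          (c₀ + η) ^ n - c₀ ^ n - n * c₀ ^ (n - 1) * η := by
        rw [X_succ, X_one (by omega), ← h2]; ring
      have h5 := taylor_unit (n := n) (by omega) hc₀ (d := η) (by linarith)
      rw [e]
      nlinarith [sq_nonneg ((n : ℝ) * ‖η‖)]
  | succ j ih =>
    obtain ⟨a, ha1, ha2, hest⟩ := ih
    set lam : ℂ := n * p ^ (n - 1) with hlam
    have hlamn : ‖lam‖ = n := by
      rw [hlam, norm_mul, norm_pow, hp, one_pow, mul_one, Complex.norm_natCast]
    set N : ℝ := (n : ℝ) ^ (j + 1) with hN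
    have hN0 : 0 < N := by positivity
    have hNs : (n : ℝ) ^ (j + 1 + 1) = N * n := by rw [pow_succ]
    refine ⟨lam * a + 1, ?_, ?_, ?_⟩
    · have h4 : ‖lam * a‖ - ‖(1 : ℂ)‖ ≤ ‖lam * a + 1‖ := by
        have := norm_sub_norm_le (lam * a) (-1)
        rw [norm_neg] at this
        refine this.trans (le_of_eq ?_)
        congr 1; ring
      rw [norm_mul, hlamn, norm_one] at h4
      rw [hNs]
      nlinarith
    · refine (norm_add_le _ _).trans ?_
      rw [norm_mul, hlamn, norm_one, hNs]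
      nlinarith
    · intro η hη
      rw [hNs] at hη ⊢
      have hη0 := norm_nonneg η
      have hNη : N * ‖η‖ * n ≤ 1 / 20 := by linarith [hη, show N * ‖η‖ * n = N * n * ‖η‖ by ring]
      have hs0 : 0 ≤ N * ‖η‖ := by positivity
      have hNη1 : N * ‖η‖ ≤ 1 / 2000 := by nlinarith
      have hP := hest η (by linarith)
      set P : ℂ := X n (j + 2) (c₀ + η) - p with hPdef
      set s : ℝ := N * ‖η‖ with hs
      have hPn : ‖P‖ ≤ (201 / 100) * s := by
        have h6 : ‖P‖ ≤ ‖a * η‖ + ‖P - a * η‖ := by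
          have := norm_add_le (a * η) (P - a * η)
          rwa [add_sub_cancel] at this
        rw [norm_mul] at h6
        have h7 : ‖a‖ * ‖η‖ ≤ 2 * s := by
          have := mul_le_mul_of_nonneg_right ha2 hη0
          rw [hs]; nlinarith
        have h8 : 5 * s ^ 2 ≤ s / 100 := by nlinarith
        linarith
      have hnP : (n : ℝ) * ‖P‖ ≤ (201 / 100) * (s * n) := by nlinarith
      have hnP1 : (n : ℝ) * ‖P‖ ≤ 1 := by linarith
      have h5 := taylor_unit (n := n) (by omega) hp (d := P) hnP1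
      have e : X n (j + 1 + 2) (c₀ + η) - p - (lam * a + 1) * η =
          lam * (P - a * η) + ((p + P) ^ n - p ^ n - n * p ^ (n - 1) * P) := by
        rw [show j + 1 + 2 = (j + 2) + 1 by ring, X_succ]
        have h9 : X n (j + 2) (c₀ + η) = p + P := by rw [hPdef]; ring
        rw [h9, hlam]
        linear_combination hfix
      rw [e]
      refine (norm_add_le _ _).trans ?_
      rw [norm_mul, hlamn]
      have h11 : (n : ℝ) * ‖P - a * η‖ ≤ n * (5 * s ^ 2) := mul_le_mul_of_nonneg_left hP hn0.le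
      have h12 : ((n : ℝ) * ‖P‖) ^ 2 ≤ ((201 / 100) * (s * n)) ^ 2 :=
        pow_le_pow_left₀ (by positivity) hnP 2
      have h13 : (N * n * ‖η‖) = s * n := by rw [hs]; ring
      rw [h13]
      have h14 : (n : ℝ) * (5 * s ^ 2) ≤ (5 / 100) * (s * n) ^ 2 := by
        have : (s * n) ^ 2 = s ^ 2 * n * n := by ring
        rw [this]
        have h15 : 0 ≤ s ^ 2 * n := by positivity
        nlinarith
      nlinarith [sq_nonneg (s * (n : ℝ))]


/-- The Misiurewicz parameters of modulus one whose critical value is mapped to a repelling fixed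
point of modulus one, with `p ^ n * (1 + u) = - c₀`, are limits of hyperbolic parameters. -/
lemma mis_closure {n : ℕ} (hn : 10 ^ 4 ≤ n) {c₀ p v : ℂ} (hc₀ : ‖c₀‖ = 1) (hp : ‖p‖ = 1)
    (h2 : c₀ ^ n + c₀ = p) (hfix : p ^ n + c₀ = p) (hv : ‖v‖ = 1) (hpv : p ^ n * v = - c₀) :
    c₀ ∈ closure (hyperbolic n) := by
  have hn4 : (10000 : ℝ) ≤ n := by exact_mod_cast hn
  have hn0 : (0 : ℝ) < n := by linarith
  have hnC : (n : ℂ) ≠ 0 := by
    have : n ≠ 0 := by omega
    exact_mod_cast this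
  have hc00 : c₀ ≠ 0 := by
    intro h; rw [h, norm_zero] at hc₀; exact zero_ne_one hc₀
  have hv0 : v ≠ 0 := by
    intro h; rw [h, norm_zero] at hv; exact zero_ne_one hv
  rw [Metric.mem_closure_iff]
  intro ε hε
  -- choose the generation
  obtain ⟨k, hk⟩ : ∃ k : ℕ, 1 / (20 * (n : ℝ) ^ (k + 1)) < ε := by
    obtain ⟨k, hk⟩ := exists_pow_lt_of_lt_one hε (show (1 / (n : ℝ)) < 1 by
      rw [div_lt_one hn0]; linarith)
    refine ⟨k, lt_of_le_of_lt ?_ hk⟩
    rw [one_div_pow]
    apply one_div_le_one_div_of_le (by positivity)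
    rw [pow_succ]
    have : 0 < (n : ℝ) ^ k := by positivity
    nlinarith
  obtain ⟨a, ha1, ha2, hest⟩ := orbit_est (n := n) (by omega) hc₀ hp h2 hfix k
  set N : ℝ := (n : ℝ) ^ (k + 1) with hN
  have hN1 : (10000 : ℝ) ≤ N := by
    rw [hN, pow_succ]
    have : 1 ≤ (n : ℝ) ^ k := one_le_pow₀ (by linarith)
    nlinarith
  have hN0 : 0 < N := by linarith
  set r : ℝ := 1 / (20 * N) with hr
  have hr0 : 0 < r := by positivity
  have hNr : N * r = 1 / 20 := by rw [hr]; field_simp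
  have hr1 : r ≤ 1 / 200000 := by
    rw [hr]; apply one_div_le_one_div_of_le (by norm_num); linarith
  -- the branch of the `n`-th root of `-c`
  set w : ℂ := Complex.log v with hw
  have hwn : ‖w‖ ≤ 4 := by
    have h3 : w.re = 0 := by rw [hw, Complex.log_re, hv, Real.log_one]
    have h4 : |w.im| ≤ Real.pi := by rw [hw, Complex.log_im]; exact Complex.abs_arg_le_pi v
    have h5 := Complex.norm_le_abs_re_add_abs_im w
    rw [h3, abs_zero] at h5
    linarith [Real.pi_le_four]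
  set τ₀ : ℂ := p * Complex.exp (w / n) with hτ₀
  have hτ₀n : τ₀ ^ n = - c₀ := by
    rw [hτ₀, mul_pow, ← Complex.exp_nat_mul, mul_div_cancel₀ _ hnC, hw, Complex.exp_log hv0, hpv]
  have hτ₀1 : ‖τ₀‖ = 1 := by
    have h3 : ‖τ₀‖ ^ n = 1 := by rw [← norm_pow, hτ₀n, norm_neg, hc₀]
    exact (pow_eq_one_iff_of_nonneg (norm_nonneg _) (by omega)).mp h3
  have hpτ : ‖p - τ₀‖ ≤ 1 / 1000 := by
    have h3 : p - τ₀ = - (p * (Complex.exp (w / n) - 1)) := by rw [hτ₀]; ring
    rw [h3, norm_neg, norm_mul, hp, one_mul]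
    have h4 : ‖w / n‖ ≤ 4 / n := by
      rw [norm_div, Complex.norm_natCast]
      exact div_le_div_of_nonneg_right hwn hn0.le
    have h5 : (4 : ℝ) / n ≤ 4 / 10000 := div_le_div_of_nonneg_left (by norm_num) (by norm_num) hn4
    have h6 := Complex.norm_exp_sub_one_le (x := w / n) (by linarith)
    linarith
  set F : ℂ → ℂ := fun c => X n (k + 2) c - τ₀ * Complex.exp (Complex.log (c / c₀) / n) with hF
  have hslit : ∀ c ∈ closedBall c₀ r, c / c₀ ∈ Complex.slitPlane ∧ ‖c / c₀ - 1‖ ≤ ‖c - c₀‖ := by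
    intro c hc
    have h3 : ‖c - c₀‖ ≤ r := by simpa [dist_eq_norm] using hc
    have h4 : ‖c / c₀ - 1‖ = ‖c - c₀‖ := by
      have : c / c₀ - 1 = (c - c₀) / c₀ := by field_simp
      rw [this, norm_div, hc₀, div_one]
    refine ⟨?_, h4.le⟩
    left
    have h5 : |(c / c₀ - 1).re| ≤ r := by
      refine (Complex.abs_re_le_norm _).trans ?_
      rw [h4]; exact h3
    have h6 := (abs_le.mp h5).1
    rw [Complex.sub_re, Complex.one_re] at h6
    linarith
  have hFdiff : DifferentiableOn ℂ F (closedBall c₀ r) := by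
    intro c hc
    have h3 := (hslit c hc).1
    have h4 : DifferentiableAt ℂ (fun c : ℂ => Complex.log (c / c₀)) c :=
      DifferentiableAt.clog (f := fun c : ℂ => c / c₀) (differentiableAt_id.div_const c₀) h3
    have h5 : DifferentiableAt ℂ F c := by
      apply DifferentiableAt.sub (X_differentiable n (k + 2) c)
      apply DifferentiableAt.const_mul
      exact (h4.div_const (n : ℂ)).cexp
    exact h5.differentiableWithinAt
  have hτ : ∀ c ∈ closedBall c₀ r, ‖τ₀ * Complex.exp (Complex.log (c / c₀) / n) - τ₀‖ ≤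
      ‖c - c₀‖ / 1000 := by
    intro c hc
    have h3 : ‖c - c₀‖ ≤ r := by simpa [dist_eq_norm] using hc
    have h4 := (hslit c hc).2
    have h5 : ‖Complex.log (c / c₀)‖ ≤ 3 / 2 * ‖c - c₀‖ := by
      have h6 := Complex.norm_log_one_add_half_le_self (z := c / c₀ - 1) (by linarith)
      rw [add_sub_cancel] at h6
      linarith
    have h7 : ‖Complex.log (c / c₀) / n‖ ≤ ‖c - c₀‖ / 5000 := by
      rw [norm_div, Complex.norm_natCast, div_le_div_iff₀ hn0 (by norm_num)]
      nlinarith [norm_nonneg (c - c₀)]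
    have h8 := Complex.norm_exp_sub_one_le (x := Complex.log (c / c₀) / n) (by linarith)
    have h9 : τ₀ * Complex.exp (Complex.log (c / c₀) / n) - τ₀ =
        τ₀ * (Complex.exp (Complex.log (c / c₀) / n) - 1) := by ring
    rw [h9, norm_mul, hτ₀1, one_mul]
    linarith [norm_nonneg (c - c₀)]
  have hF₀ : F c₀ = p - τ₀ := by
    have h3 : X n (k + 2) c₀ = p := by
      have h4 := hest 0 (by simp)
      simp only [add_zero, mul_zero, norm_zero, sub_zero] at h4
      have h5 : ‖X n (k + 2) c₀ - p‖ ≤ 0 := by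
        refine h4.trans (by norm_num)
      exact sub_eq_zero.mp (norm_le_zero_iff.mp h5)
    simp only [hF, h3, div_self hc00, Complex.log_one, zero_div, Complex.exp_zero, mul_one]
  -- lower bound for the variation of `F`
  have hlow : ∀ c ∈ closedBall c₀ r, N * ‖c - c₀‖ * (1 / 5) ≤ ‖F c - F c₀‖ := by
    intro c hc
    have h3 : ‖c - c₀‖ ≤ r := by simpa [dist_eq_norm] using hc
    set η : ℂ := c - c₀ with hη
    have hcη : c = c₀ + η := by rw [hη]; ring
    have h4 : N * ‖η‖ ≤ 1 / 20 := by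
      rw [← hNr]; exact mul_le_mul_of_nonneg_left h3 hN0.le
    have h5 := hest η h4
    rw [← hcη] at h5
    have h6 := hτ c hc
    have e : a * η = (F c - F c₀) - (X n (k + 2) c - p - a * η) +
        (τ₀ * Complex.exp (Complex.log (c / c₀) / n) - τ₀) := by
      rw [hF₀]; simp only [hF]; ring
    have h7 : ‖a * η‖ ≤ ‖F c - F c₀‖ + ‖X n (k + 2) c - p - a * η‖ +
        ‖τ₀ * Complex.exp (Complex.log (c / c₀) / n) - τ₀‖ := by
      conv_lhs => rw [e]
      refine (norm_add_le _ _).trans ?_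
      gcongr
      exact norm_sub_le _ _
    rw [norm_mul] at h7
    have h8 : (N / 2 + 1) * ‖η‖ ≤ ‖a‖ * ‖η‖ := mul_le_mul_of_nonneg_right ha1 (norm_nonneg _)
    have h9 : 5 * (N * ‖η‖) ^ 2 ≤ N * ‖η‖ * (1 / 4) := by
      have : 0 ≤ N * ‖η‖ := by positivity
      nlinarith
    have h10 := norm_nonneg η
    have h11 : 0 ≤ N * ‖η‖ := by positivity
    nlinarith
  have hball := DiffContOnCl.ball_subset_image_closedBall (f := F) (z₀ := c₀) (r := r)
    (ε := 1 / 100) ((hFdiff.mono closure_ball_subset_closedBall).diffContOnCl) hr0 (by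
      intro z hz
      have h3 : ‖z - c₀‖ = r := by simpa [dist_eq_norm] using hz
      refine le_trans ?_ (hlow z (sphere_subset_closedBall hz))
      rw [h3, hNr]; norm_num) (by
      have h3 : ∀ᶠ z in 𝓝[≠] c₀, F z ≠ F c₀ := by
        rw [eventually_nhdsWithin_iff]
        filter_upwards [closedBall_mem_nhds c₀ hr0] with z hz hzne
        intro hcon
        have h4 := hlow z hz
        rw [hcon, sub_self, norm_zero] at h4
        have h5 : 0 < ‖z - c₀‖ := norm_pos_iff.mpr (sub_ne_zero.mpr hzne)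
        nlinarith [mul_pos hN0 h5]
      exact h3.frequently.filter_mono nhdsWithin_le_nhds)
  have h0 : (0 : ℂ) ∈ ball (F c₀) (1 / 100 / 2) := by
    rw [mem_ball, dist_eq_norm, hF₀, zero_sub, norm_neg]
    linarith
  obtain ⟨c, hc, hFc⟩ := hball h0
  refine ⟨c, ?_, ?_⟩
  · apply hyperbolic_of_X_eq_zero (k := k + 2) (by omega)
    rw [X_succ]
    have h3 : X n (k + 2) c = τ₀ * Complex.exp (Complex.log (c / c₀) / n) := sub_eq_zero.mp hFc
    rw [h3, mul_pow, hτ₀n, ← Complex.exp_nat_mul, mul_div_cancel₀ _ hnC,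
      Complex.exp_log (Complex.slitPlane_ne_zero (hslit c hc).1)]
    field_simp
    ring
  · have h3 : dist c c₀ ≤ r := hc
    rw [dist_comm]
    exact lt_of_le_of_lt h3 hk

end Pool.Agent.helper69.MB
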