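import Mathlib
import Pool.Agent.lead.MultibrotTwo
import Pool.Agent.helper16.Multibrot.Region
import Pool.Agent.helper69.Multibrot.Mis

/-!
# Parameters of modulus one of `z ^ n + c`, for large `n`
-/

set_option autoImplicit false
open Filter Topology

namespace Pool.Agent.helper69.MB

open Pool.Agent.helper16.Multibrot

/-- modulus of `u ^ 2 + u + 1` on the unit circle. -/
lemma norm_quad {u : ℂ} (hu : ‖u‖ = 1) : ‖u ^ 2 + u + 1‖ = |‖1 + u‖ ^ 2 - 1| := by
  have h1 : u * (starRingEnd ℂ) u = 1 := by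
    rw [Complex.mul_conj, Complex.normSq_eq_norm_sq, hu]; norm_num
  have h2 : u ^ 2 + u + 1 = u * (((1 + 2 * u.re : ℝ)) : ℂ) := by
    have h3 : (((1 + 2 * u.re : ℝ)) : ℂ) = 1 + (u + (starRingEnd ℂ) u) := by
      rw [Complex.add_conj]; push_cast; ring
    rw [h3]
    linear_combination -h1
  have h4 : ‖1 + u‖ ^ 2 = 2 + 2 * u.re := by
    have h5 : ‖u‖ ^ 2 = u.re ^ 2 + u.im ^ 2 := by
      rw [← Complex.normSq_eq_norm_sq, Complex.normSq_apply]; ring
    rw [← Complex.normSq_eq_norm_sq, Complex.normSq_apply, Complex.add_re, Complex.add_im,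
      Complex.one_re, Complex.one_im]
    rw [hu] at h5
    nlinarith
  rw [h2, norm_mul, hu, one_mul, Complex.norm_real, Real.norm_eq_abs, h4]
  congr 1; ring

/-- separation of roots of unity. -/
lemma root_sep {N : ℕ} (hN : 0 < N) {z : ℂ} (hz : z ^ N = 1) (hz1 : z ≠ 1) :
    2 / (N : ℝ) ≤ ‖z - 1‖ := by
  have hN0 : (0 : ℝ) < N := by exact_mod_cast hN
  have hzn : ‖z‖ = 1 := by
    have : ‖z‖ ^ N = 1 := by rw [← norm_pow, hz, norm_one]
    exact (pow_eq_one_iff_of_nonneg (norm_nonneg _) (by omega)).mp this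
  have h1 : ∑ k ∈ Finset.range N, z ^ k = 0 := by
    have h2 := geom_sum_eq hz1 N
    rw [h2, hz, sub_self, zero_div]
  have h3 : ∀ k : ℕ, ‖1 - z ^ k‖ ≤ k * ‖z - 1‖ := by
    intro k
    induction k with
    | zero => simp
    | succ k ih =>
      have e : 1 - z ^ (k + 1) = (1 - z ^ k) - z ^ k * (z - 1) := by ring
      rw [e]
      refine (norm_sub_le _ _).trans ?_
      rw [norm_mul, norm_pow, hzn, one_pow, one_mul]
      push_cast
      linarith
  have h4 : (N : ℂ) = ∑ k ∈ Finset.range N, (1 - z ^ k) := by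
    rw [Finset.sum_sub_distrib, h1]; simp
  have h5 : (N : ℝ) ≤ ∑ k ∈ Finset.range N, ((k : ℝ) * ‖z - 1‖) := by
    have h6 : ‖(N : ℂ)‖ = N := Complex.norm_natCast N
    rw [← h6, h4]
    exact (norm_sum_le _ _).trans (Finset.sum_le_sum (fun k _ => h3 k))
  rw [← Finset.sum_mul] at h5
  have h7 : (∑ k ∈ Finset.range N, (k : ℝ)) * 2 = N * (N - 1) := by
    have h8 := Finset.sum_range_id_mul_two N
    have h9 : ((∑ k ∈ Finset.range N, k : ℕ) : ℝ) * 2 = N * ((N - 1 : ℕ) : ℝ) := by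
      exact_mod_cast h8
    rw [Nat.cast_sub (by omega), Nat.cast_one] at h9
    push_cast at h9
    exact h9
  rw [div_le_iff₀ hN0]
  have h10 := norm_nonneg (z - 1)
  have h11 : (N : ℝ) * 2 ≤ N * ((N - 1) * ‖z - 1‖) := by nlinarith
  have h12 : (2 : ℝ) ≤ (N - 1) * ‖z - 1‖ := le_of_mul_le_mul_left h11 hN0
  nlinarith

/-- a root of unity of order dividing `q` is either a primitive cube root of unity, or at some
distance from them. -/
lemma quad_sep {q : ℕ} (hq : 0 < q) {u : ℂ} (hu : u ^ q = 1) (h : u ^ 2 + u + 1 ≠ 0) :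
    1 / (q : ℝ) ≤ ‖u ^ 2 + u + 1‖ := by
  have hq0 : (0 : ℝ) < q := by exact_mod_cast hq
  have hq1 : (1 : ℝ) ≤ q := by exact_mod_cast hq
  have hun : ‖u‖ = 1 := by
    have : ‖u‖ ^ q = 1 := by rw [← norm_pow, hu, norm_one]
    exact (pow_eq_one_iff_of_nonneg (norm_nonneg _) (by omega)).mp this
  by_cases h1 : u = 1
  · rw [h1]
    have : ‖(1 : ℂ) ^ 2 + 1 + 1‖ = 3 := by
      rw [show (1 : ℂ) ^ 2 + 1 + 1 = ((3 : ℕ) : ℂ) by norm_num, Complex.norm_natCast]; norm_num
    rw [this]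
    have h2 : 1 / (q : ℝ) ≤ 1 := by rw [div_le_one hq0]; exact hq1
    linarith
  · have h2 : u - 1 ≠ 0 := sub_ne_zero.mpr h1
    have h3 : (u - 1) * (u ^ 2 + u + 1) = u ^ 3 - 1 := by ring
    have h4 : u ^ 3 ≠ 1 := by
      intro h5
      rw [h5, sub_self] at h3
      rcases mul_eq_zero.mp h3 with h6 | h6
      · exact h2 h6
      · exact h h6
    have h5 : (u ^ 3) ^ q = 1 := by rw [← pow_mul, mul_comm, pow_mul, hu, one_pow]
    have h6 := root_sep hq h5 h4
    rw [← h3, norm_mul] at h6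
    have h7 : ‖u - 1‖ ≤ 2 := by
      refine (norm_sub_le _ _).trans ?_
      rw [hun, norm_one]; norm_num
    have h8 := norm_nonneg (u ^ 2 + u + 1)
    rw [div_le_iff₀ hq0] at h6 ⊢
    nlinarith [mul_nonneg (sub_nonneg.mpr h7) (mul_nonneg h8 hq0.le)]

lemma log_div_small {n : ℕ} (hn : 10 ^ 4 ≤ n) : Real.log n / n ≤ 1 / 40 := by
  have hn4 : (10000 : ℝ) ≤ n := by exact_mod_cast hn
  have hn0 : (0 : ℝ) < n := by linarith
  have h1 := Real.log_le_sub_one_of_pos (x := Real.sqrt n) (Real.sqrt_pos.mpr hn0)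
  rw [Real.log_sqrt hn0.le] at h1
  have h2 : (100 : ℝ) ≤ Real.sqrt n := by
    rw [show (100 : ℝ) = Real.sqrt (100 ^ 2) by rw [Real.sqrt_sq (by norm_num)]]
    exact Real.sqrt_le_sqrt (by linarith)
  have h3 : Real.sqrt n * Real.sqrt n = n := Real.mul_self_sqrt hn0.le
  rw [div_le_div_iff₀ hn0 (by norm_num)]
  nlinarith

/-- a non-hyperbolic parameter of modulus one in `M_n` has `c ^ (n - 1)` close to a primitive cube
root of unity. -/
lemma quad_small {n : ℕ} (hn : 10 ^ 4 ≤ n) {c : ℂ} (hc : ‖c‖ = 1) (hM : c ∈ multibrot n)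
    (hH : c ∉ hyperbolic n) :
    ‖(c ^ (n - 1)) ^ 2 + c ^ (n - 1) + 1‖ ≤ 32 * (Real.log n / n) := by
  have hn4 : (10000 : ℝ) ≤ n := by exact_mod_cast hn
  have hn0 : (0 : ℝ) < n := by linarith
  have hL := log_div_small hn
  have hL0 : 0 ≤ Real.log n / n := div_nonneg (Real.log_nonneg (by linarith)) hn0.le
  have hcn : ‖c‖ ^ (n - 1) = 1 := by rw [hc, one_pow]
  have hu : ‖c ^ (n - 1)‖ = 1 := by rw [norm_pow, hcn]
  have h1 := norm_one_add_le (n := n) (by omega) hM (by
    rw [hcn, div_le_one hn0]; linarith) hL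
  have h2 : 1 - 16 * (Real.log n / n) < ‖1 + c ^ (n - 1)‖ := by
    by_contra hcon
    push Not at hcon
    exact hH (Pool.Agent.LeadMultibrot.region_two (n := n) (by omega) (by rw [hu]; norm_num)
      hcon rfl)
  rw [norm_quad hu, abs_le]
  have h3 := norm_nonneg (1 + c ^ (n - 1))
  constructor
  · nlinarith
  · nlinarith

lemma X_three_eq {n : ℕ} (hn : 1 ≤ n) {c u : ℂ} (hcu : c ^ (n - 1) = u) (hu : u ^ 2 + u + 1 = 0) :
    X n 3 c = c * (1 + (-1) ^ n * u ^ (2 * n + 1)) := by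
  have hcn : c ^ n = c * u := by rw [← hcu, ← pow_succ']; congr 1; omega
  rw [X_succ, X_succ, X_one (by omega), hcn]
  have h1 : c * u + c = (-1) * c * u ^ 2 := by linear_combination c * hu
  rw [h1, mul_pow, mul_pow, hcn]
  ring

/-- roots of unity: for large `n`, they belong to the closure of the hyperbolic parameters as soon
as they belong to `M_n`. -/
lemma root_of_unity_closure {q n : ℕ} (hq : 0 < q) (hn : 10 ^ 4 ≤ n)
    (hqn : 32 * (q : ℝ) * Real.log n < n) {c : ℂ} (hc : c ^ q = 1) (hM : c ∈ multibrot n) :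
    c ∈ closure (hyperbolic n) := by
  have hn4 : (10000 : ℝ) ≤ n := by exact_mod_cast hn
  have hn0 : (0 : ℝ) < n := by linarith
  have hq0 : (0 : ℝ) < q := by exact_mod_cast hq
  by_cases hH : c ∈ hyperbolic n
  · exact subset_closure hH
  have hcn : ‖c‖ = 1 := by
    have : ‖c‖ ^ q = 1 := by rw [← norm_pow, hc, norm_one]
    exact (pow_eq_one_iff_of_nonneg (norm_nonneg _) (by omega)).mp this
  set u : ℂ := c ^ (n - 1) with hu
  have hun : ‖u‖ = 1 := by rw [hu, norm_pow, hcn, one_pow]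
  have huq : u ^ q = 1 := by rw [hu, ← pow_mul, mul_comm, pow_mul, hc, one_pow]
  have hquad : u ^ 2 + u + 1 = 0 := by
    by_contra hne
    have h1 := quad_sep hq huq hne
    have h2 := quad_small hn hcn hM hH
    rw [← hu] at h2
    have h3 : 1 / (q : ℝ) ≤ 32 * (Real.log n / n) := h1.trans h2
    rw [← mul_div_assoc, div_le_div_iff₀ hq0 hn0] at h3
    linarith
  have hu3 : u ^ 3 = 1 := by linear_combination (u - 1) * hquad
  have hcu : c ^ n = c * u := by rw [hu, ← pow_succ']; congr 1; omega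
  have hx3 := X_three_eq (n := n) (by omega) hu.symm hquad
  have hum : ∀ k r : ℕ, u ^ (3 * k + r) = u ^ r := by
    intro k r; rw [pow_add, pow_mul, hu3, one_pow, one_mul]
  have hneg : ∀ k r : ℕ, (-1 : ℂ) ^ (2 * k + r) = (-1) ^ r := by
    intro k r; rw [pow_add, pow_mul]; norm_num
  have hre : u.re = - (1 / 2) := by
    have h1 := norm_quad hun
    rw [hquad, norm_zero] at h1
    have h4 : ‖1 + u‖ ^ 2 = 2 + 2 * u.re := by
      have h5 : ‖u‖ ^ 2 = u.re ^ 2 + u.im ^ 2 := by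
        rw [← Complex.normSq_eq_norm_sq, Complex.normSq_apply]; ring
      rw [← Complex.normSq_eq_norm_sq, Complex.normSq_apply, Complex.add_re, Complex.add_im,
        Complex.one_re, Complex.one_im]
      rw [hun] at h5
      nlinarith
    have h6 := abs_eq_zero.mp h1.symm
    linarith
  have him : u.im ^ 2 = 3 / 4 := by
    have h5 : ‖u‖ ^ 2 = u.re ^ 2 + u.im ^ 2 := by
      rw [← Complex.normSq_eq_norm_sq, Complex.normSq_apply]; ring
    rw [hun, hre] at h5
    linarith
  -- escape when the third or fourth point is large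
  have hesc : ∀ m : ℕ, 3 ≤ ‖X n m c‖ ^ 2 → False := by
    intro m hm
    have h0 := norm_nonneg (X n m c)
    have h1 : 1 ≤ ‖X n m c‖ := by nlinarith
    apply hM
    refine Pool.Agent.LeadMultibrot.escape_zero (n := n) (by omega) m ?_ ?_
    · rw [hcn]; exact h1
    · have h2 : ‖X n m c‖ ^ 2 ≤ ‖X n m c‖ ^ (n - 1) := pow_le_pow_right₀ h1 (by omega)
      have h3 : ‖X n m c‖ ^ (n - 1) = ‖(fun w : ℂ => w ^ n + c)^[m] 0‖ ^ (n - 1) := rfl
      rw [← h3]
      linarith
  have hmod : n % 6 < 6 := Nat.mod_lt _ (by norm_num)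
  obtain ⟨k, r, hr, hnk⟩ : ∃ k r : ℕ, r < 6 ∧ n = 6 * k + r := ⟨n / 6, n % 6, hmod, by omega⟩
  interval_cases r
  · -- `6 ∣ n`
    have hp : ‖c * (1 + u)‖ = 1 := by
      have h1 : (1 : ℂ) + u = - u ^ 2 := by linear_combination hquad
      rw [h1, norm_mul, norm_neg, norm_pow, hun, hcn]; norm_num
    have hv : ‖(1 : ℂ) + u‖ = 1 := by rw [norm_mul, hcn, one_mul] at hp; exact hp
    have hpn : (c * (1 + u)) ^ n = c * u := by
      have h1 : (1 : ℂ) + u = (-1) * u ^ 2 := by linear_combination hquad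
      rw [h1, mul_pow, mul_pow, hcu, ← pow_mul]
      have h2 : u ^ (2 * n) = 1 := by
        rw [show 2 * n = 3 * (4 * k) + 0 by omega, hum, pow_zero]
      have h3 : (-1 : ℂ) ^ n = 1 := by
        rw [show n = 2 * (3 * k) + 0 by omega, hneg, pow_zero]
      rw [h2, h3]; ring
    exact mis_closure (p := c * (1 + u)) (v := 1 + u) hn hcn hp (by rw [hcu]; ring)
      (by rw [hpn]; ring) hv (by rw [hpn]; linear_combination c * hquad)
  · -- `n ≡ 1`
    exfalso
    apply hH
    apply hyperbolic_of_X_eq_zero (k := 2) (by omega)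
    rw [hx3, show 2 * n + 1 = 3 * (4 * k + 1) + 0 by omega, hum,
      show n = 2 * (3 * k) + 1 by omega, hneg]
    ring
  · -- `n ≡ 2`
    exfalso
    apply hesc 4
    have h3 : X n 3 c = (-1) * c * u := by
      have e1 : u ^ (2 * n + 1) = u ^ 2 := by
        rw [show 2 * n + 1 = 3 * (4 * k + 1) + 2 by omega, hum]
      have e2 : (-1 : ℂ) ^ n = 1 := by
        rw [show n = 2 * (3 * k + 1) + 0 by omega, hneg, pow_zero]
      rw [hx3, e1, e2]
      linear_combination c * hquad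
    have h4 : X n 4 c = 2 * c := by
      have e1 : u * u ^ n = 1 := by
        rw [← pow_succ', show n + 1 = 3 * (2 * k + 1) + 0 by omega, hum, pow_zero]
      have e2 : (-1 : ℂ) ^ n = 1 := by
        rw [show n = 2 * (3 * k + 1) + 0 by omega, hneg, pow_zero]
      rw [X_succ, h3, mul_pow, mul_pow, hcu, e2]
      linear_combination c * e1
    rw [h4, norm_mul, hcn]; norm_num
  · -- `n ≡ 3`
    exfalso
    apply hesc 3
    have h3 : X n 3 c = c * (1 - u) := by
      have e1 : u ^ (2 * n + 1) = u := by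
        rw [show 2 * n + 1 = 3 * (4 * k + 2) + 1 by omega, hum, pow_one]
      have e2 : (-1 : ℂ) ^ n = -1 := by
        rw [show n = 2 * (3 * k + 1) + 1 by omega, hneg, pow_one]
      rw [hx3, e1, e2]; ring
    rw [h3, norm_mul, hcn, one_mul, ← Complex.normSq_eq_norm_sq, Complex.normSq_apply,
      Complex.sub_re, Complex.sub_im, Complex.one_re, Complex.one_im, hre]
    nlinarith
  · -- `n ≡ 4`
    exfalso
    apply hesc 3
    have h3 : X n 3 c = 2 * c := by
      have e1 : u ^ (2 * n + 1) = 1 := by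
        rw [show 2 * n + 1 = 3 * (4 * k + 3) + 0 by omega, hum, pow_zero]
      have e2 : (-1 : ℂ) ^ n = 1 := by
        rw [show n = 2 * (3 * k + 2) + 0 by omega, hneg, pow_zero]
      rw [hx3, e1, e2]; ring
    rw [h3, norm_mul, hcn]; norm_num
  · -- `n ≡ 5`
    exfalso
    apply hesc 3
    have h3 : X n 3 c = c * (2 + u) := by
      have e1 : u ^ (2 * n + 1) = u ^ 2 := by
        rw [show 2 * n + 1 = 3 * (4 * k + 3) + 2 by omega, hum]
      have e2 : (-1 : ℂ) ^ n = -1 := by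
        rw [show n = 2 * (3 * k + 2) + 1 by omega, hneg, pow_one]
      rw [hx3, e1, e2]
      linear_combination (-c) * hquad
    rw [h3, norm_mul, hcn, one_mul, ← Complex.normSq_eq_norm_sq, Complex.normSq_apply,
      Complex.add_re, Complex.add_im, hre]
    simp
    nlinarith

end Pool.Agent.helper69.MB
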