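import Mathlib
import Pool.Agent.helper16.Multibrot.Defs

/-!
# Degrees `n` for which a parameter of `z ^ n + c` is not a limit of hyperbolic parameters

`multibrot n` (the Multibrot set `M_n`) and `hyperbolic n` (the set `H_n` of the parameters with an
attracting cycle) are defined in `Pool/Agent/helper16/Multibrot/Defs.lean`.
-/

set_option autoImplicit false

namespace Pool.Agent.helper69.MB

open Pool.Agent.helper16.Multibrot

/-- The degrees `n ≥ 2` such that some `c` with `c ^ (n - 1) = a * b ^ n` belongs to `M_n` but not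
to the closure of `H_n`. (If one solution `c` of `c ^ (n - 1) = a * b ^ n` has this property, all
the solutions have it, by the symmetry `c ↦ ζ c`, `ζ ^ (n - 1) = 1`, of `M_n` and `H_n`.) -/
def exceptional (a b : ℂ) : Set ℕ :=
  {n | 2 ≤ n ∧ ∃ c : ℂ, c ^ (n - 1) = a * b ^ n ∧ c ∈ multibrot n ∧ c ∉ closure (hyperbolic n)}

/-- The degrees `n ≥ 2` such that `c` belongs to `M_n` but not to the closure of `H_n`. -/
def exceptionalAt (c : ℂ) : Set ℕ :=
  {n | 2 ≤ n ∧ c ∈ multibrot n ∧ c ∉ closure (hyperbolic n)}

/-- The set `A` of natural numbers has upper Banach density zero: for every `ε > 0`, all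
sufficiently long intervals of integers have at most the proportion `ε` of their points in `A`. -/
def BanachNull (A : Set ℕ) : Prop :=
  ∀ ε : ℝ, 0 < ε → ∃ L₀ : ℕ, ∀ L : ℕ, L₀ ≤ L → ∀ m : ℕ,
    ((A ∩ Set.Ico m (m + L)).ncard : ℝ) ≤ ε * L

end Pool.Agent.helper69.MB
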