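import Mathlib
import Pool.Agent.lead.MultibrotTwo
import Pool.Agent.helper16.Multibrot.Region
import Pool.Agent.helper69.Multibrot.Mis

/-!
# The normalised critical orbit of `z ^ n + c` as a function of `u = c ^ (n - 1)`
-/

set_option autoImplicit false
open Filter Topology Metric

namespace Pool.Agent.helper69.MB

open Pool.Agent.helper16.Multibrot

/-- the normalised critical orbit: `X n (j + 1) c = c * Y n j (c ^ (n - 1))`. -/
def Y (n : ℕ) : ℕ → ℂ → ℂ
  | 0, _ => 1
  | j + 1, u => 1 + u * Y n j u ^ n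

lemma Y_zero (n : ℕ) (u : ℂ) : Y n 0 u = 1 := rfl

lemma Y_succ (n j : ℕ) (u : ℂ) : Y n (j + 1) u = 1 + u * Y n j u ^ n := rfl

lemma Y_one (n : ℕ) (u : ℂ) : Y n 1 u = 1 + u := by
  rw [Y_succ, Y_zero, one_pow, mul_one]

lemma Y_two (n : ℕ) (u : ℂ) : Y n 2 u = 1 + u * (1 + u) ^ n := by
  rw [Y_succ, Y_one]

lemma Y_differentiable (n j : ℕ) : Differentiable ℂ (Y n j) := by
  induction j with
  | zero => exact differentiable_const 1
  | succ j ih =>
    have : Y n (j + 1) = fun u => 1 + u * Y n j u ^ n := by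
      funext u; exact Y_succ n j u
    rw [this]
    exact (differentiable_const 1).add (differentiable_id.mul (ih.pow n))

lemma conj_pow {n : ℕ} (hn : 1 ≤ n) (c y : ℂ) :
    (c * y) ^ n + c = c * (1 + c ^ (n - 1) * y ^ n) := by
  have : c ^ n = c * c ^ (n - 1) := by rw [← pow_succ']; congr 1; omega
  rw [mul_pow, this]; ring

lemma X_eq {n : ℕ} (hn : 1 ≤ n) (j : ℕ) (c : ℂ) : X n (j + 1) c = c * Y n j (c ^ (n - 1)) := by
  induction j with
  | zero => rw [X_one (by omega), Y_zero, mul_one]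
  | succ j ih => rw [X_succ, ih, conj_pow hn, Y_succ]

/-- A differentiable map sending a disc well inside of itself has an attracting fixed point. -/
lemma capture {F : ℂ → ℂ} (hF : Differentiable ℂ F) {z₀ : ℂ} {r : ℝ} (hr : 0 < r)
    (h : ∀ z ∈ closedBall z₀ r, ‖F z - z₀‖ ≤ r / 5) : ∃ z : ℂ, F z = z ∧ ‖deriv F z‖ < 1 := by
  set K : Set ℂ := closedBall z₀ (r / 2) with hK
  have hmaps : Set.MapsTo F K K := by
    intro z hz
    have h1 := h z (closedBall_subset_closedBall (by linarith) hz)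
    rw [hK, mem_closedBall, dist_eq_norm]
    linarith
  have hder : ∀ z ∈ K, ‖deriv F z‖ ≤ 2 / 5 := by
    intro z hz
    have h1 : deriv F z = deriv (fun w => F w - z₀) z := by
      rw [deriv_sub_const]
    rw [h1]
    have h2 := Complex.norm_deriv_le_of_forall_mem_sphere_norm_le (c := z) (R := r / 2)
      (C := r / 5) (f := fun w => F w - z₀) (by linarith)
      ((hF.sub_const z₀).diffContOnCl) (by
        intro w hw
        apply h
        have h3 : dist w z = r / 2 := hw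
        have h4 : dist z z₀ ≤ r / 2 := hz
        have h5 := dist_triangle w z z₀
        rw [mem_closedBall]
        linarith)
    refine h2.trans (le_of_eq ?_)
    field_simp
  have hlip : LipschitzOnWith (2 / 5 : NNReal) F K := by
    apply Convex.lipschitzOnWith_of_nnnorm_deriv_le (fun z _ => hF z) _ (convex_closedBall _ _)
    intro z hz
    rw [← NNReal.coe_le_coe, coe_nnnorm]
    simpa using hder z hz
  have hcontr : ContractingWith (2 / 5 : NNReal) (hmaps.restrict F K K) := by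
    refine ⟨?_, (hlip.mapsToRestrict hmaps)⟩
    rw [← NNReal.coe_lt_coe]; norm_num
  have h1K : z₀ ∈ K := mem_closedBall_self (by linarith)
  obtain ⟨w, hwK, hfix, -, -⟩ := hcontr.exists_fixedPoint' Metric.isClosed_closedBall.isComplete
    hmaps h1K (edist_ne_top _ _)
  exact ⟨w, hfix, lt_of_le_of_lt (hder w hwK) (by norm_num)⟩

lemma one_add_pow_le {n : ℕ} {x : ℝ} (hx : 0 ≤ x) (hnx : (n : ℝ) * x ≤ 1) :
    (1 + x) ^ n - 1 ≤ 2 * (n * x) := by
  have h := real_taylor hx hnx
  have h0 : 0 ≤ (n : ℝ) * x := by positivity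
  nlinarith

lemma log_ge_nine {n : ℕ} (hn : 10 ^ 4 ≤ n) : 9 ≤ Real.log n := by
  have hn4 : (10000 : ℝ) ≤ n := by exact_mod_cast hn
  have h1 : Real.log 10000 ≤ Real.log n := Real.log_le_log (by norm_num) hn4
  have h2 : Real.log 8192 ≤ Real.log 10000 := Real.log_le_log (by norm_num) (by norm_num)
  have h3 : Real.log 8192 = 13 * Real.log 2 := by
    rw [show (8192 : ℝ) = 2 ^ 13 by norm_num, Real.log_pow]; norm_num
  have h4 := Real.log_two_gt_d9
  linarith

/-- The region where the third iterate contracts a disc around the critical value. -/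
lemma region_three {n : ℕ} (hn : 10 ^ 4 ≤ n) {c u : ℂ} (hcu : c ^ (n - 1) = u) (hu2 : ‖u‖ ≤ 2)
    (hu0 : u ≠ 0) (hp : ‖1 + u‖ = 1)
    (h3 : ‖1 + u * (1 + u) ^ n‖ ≤ 1 - 16 * (Real.log n / n)) : c ∈ hyperbolic n := by
  have hn4 : (10000 : ℝ) ≤ n := by exact_mod_cast hn
  have hn0 : (0 : ℝ) < n := by linarith
  have hlog9 := log_ge_nine hn
  set L : ℝ := Real.log n / n with hL
  have hL9 : 9 / (n : ℝ) ≤ L := div_le_div_of_nonneg_right hlog9 hn0.le
  have hc0 : c ≠ 0 := by
    intro h; rw [h, zero_pow (by omega)] at hcu; exact hu0 hcu.symm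
  have hcpos : 0 < ‖c‖ := norm_pos_iff.mpr hc0
  set p : ℂ := 1 + u with hpdef
  have hp0 : p ≠ 0 := by intro h; rw [h, norm_zero] at hp; exact zero_ne_one hp
  set r : ℝ := 1 / (n : ℝ) ^ 3 with hr
  have hr0 : 0 < r := by positivity
  let g : ℂ → ℂ := fun y => 1 + u * y ^ n
  have hconj : ∀ y : ℂ, (c * y) ^ n + c = c * g y := by
    intro y; rw [conj_pow (by omega), hcu]
  have hnr : (n : ℝ) * r = 1 / (n : ℝ) ^ 2 := by rw [hr]; field_simp
  have hn2 : (1 : ℝ) ≤ (n : ℝ) ^ 2 := one_le_pow₀ (by linarith)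
  have hnr1 : (n : ℝ) * r ≤ 1 := by
    rw [hnr, div_le_one (by positivity)]; exact hn2
  have key : ∀ y : ℂ, ‖y - 1‖ ≤ r → ‖g (g (g y)) - 1‖ ≤ r / 5 := by
    intro y hy
    -- first step
    have h1 : ‖y ^ n - 1‖ ≤ 2 / (n : ℝ) ^ 2 := by
      refine (Pool.Agent.LeadMultibrot.norm_pow_sub_one_le y n).trans ?_
      have h4 : (1 + ‖y - 1‖) ^ n ≤ (1 + r) ^ n :=
        pow_le_pow_left₀ (by positivity) (by linarith) n
      have h5 := one_add_pow_le hr0.le hnr1
      have h6 : 2 * ((n : ℝ) * r) = 2 / (n : ℝ) ^ 2 := by rw [hnr]; ring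
      linarith
    have h2 : ‖g y - p‖ ≤ 4 / (n : ℝ) ^ 2 := by
      have e : g y - p = u * (y ^ n - 1) := by simp only [g, hpdef]; ring
      rw [e, norm_mul]
      calc ‖u‖ * ‖y ^ n - 1‖ ≤ 2 * (2 / (n : ℝ) ^ 2) :=
            mul_le_mul hu2 h1 (norm_nonneg _) (by norm_num)
        _ = 4 / (n : ℝ) ^ 2 := by ring
    -- second step
    have h4 : ‖g y / p - 1‖ ≤ 4 / (n : ℝ) ^ 2 := by
      have e : g y / p - 1 = (g y - p) / p := by field_simp
      rw [e, norm_div, hp, div_one]; exact h2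
    have h5 : ‖(g y / p) ^ n - 1‖ ≤ 8 / n := by
      refine (Pool.Agent.LeadMultibrot.norm_pow_sub_one_le _ n).trans ?_
      have h6 : (1 + ‖g y / p - 1‖) ^ n ≤ (1 + 4 / (n : ℝ) ^ 2) ^ n :=
        pow_le_pow_left₀ (by positivity) (by linarith) n
      have e : (n : ℝ) * (4 / (n : ℝ) ^ 2) = 4 / n := by field_simp
      have h7 := one_add_pow_le (n := n) (x := 4 / (n : ℝ) ^ 2) (by positivity) (by
        rw [e, div_le_one hn0]; linarith)
      rw [e] at h7
      have : 2 * (4 / (n : ℝ)) = 8 / n := by ring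
      linarith
    have h6 : ‖g (g y) - (1 + u * p ^ n)‖ ≤ 16 / n := by
      have e : g (g y) - (1 + u * p ^ n) = u * (p ^ n * ((g y / p) ^ n - 1)) := by
        have : g (g y) = 1 + u * (g y) ^ n := rfl
        rw [this, div_pow]
        field_simp
        ring
      rw [e, norm_mul, norm_mul, norm_pow, hp, one_pow, one_mul]
      calc ‖u‖ * ‖(g y / p) ^ n - 1‖ ≤ 2 * (8 / n) :=
            mul_le_mul hu2 h5 (norm_nonneg _) (by norm_num)
        _ = 16 / n := by ring
    have h7 : ‖g (g y)‖ ≤ 1 - 14 * L := by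
      have e : g (g y) = (1 + u * p ^ n) + (g (g y) - (1 + u * p ^ n)) := by ring
      have h8 : ‖g (g y)‖ ≤ ‖1 + u * p ^ n‖ + ‖g (g y) - (1 + u * p ^ n)‖ := by
        conv_lhs => rw [e]
        exact norm_add_le _ _
      have h9 : 16 / (n : ℝ) ≤ 2 * (9 / n) := by
        rw [← mul_div_assoc]; exact div_le_div_of_nonneg_right (by norm_num) hn0.le
      linarith
    -- third step
    have h8 : ‖g (g y)‖ ^ n ≤ 1 / (n : ℝ) ^ 14 := by
      have h9 : ‖g (g y)‖ ≤ Real.exp (-(14 * L)) := by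
        linarith [Real.add_one_le_exp (-(14 * L))]
      calc ‖g (g y)‖ ^ n ≤ Real.exp (-(14 * L)) ^ n := pow_le_pow_left₀ (norm_nonneg _) h9 n
        _ = Real.exp ((n : ℝ) * (-(14 * L))) := by rw [Real.exp_nat_mul]
        _ = Real.exp (-(((14 : ℕ) : ℝ) * Real.log n)) := by
            congr 1; rw [hL]; field_simp; norm_num
        _ = 1 / (n : ℝ) ^ 14 := by
            rw [Real.exp_neg, Real.exp_nat_mul, Real.exp_log hn0, one_div]
    have e : g (g (g y)) - 1 = u * (g (g y)) ^ n := by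
      have : g (g (g y)) = 1 + u * (g (g y)) ^ n := rfl
      rw [this]; ring
    rw [e, norm_mul, norm_pow]
    have h10 : (10000 : ℝ) ≤ (n : ℝ) ^ 11 := by
      calc (10000 : ℝ) ≤ n := hn4
        _ ≤ (n : ℝ) ^ 11 := le_self_pow₀ (by linarith) (by norm_num)
    calc ‖u‖ * ‖g (g y)‖ ^ n ≤ 2 * (1 / (n : ℝ) ^ 14) :=
          mul_le_mul hu2 h8 (by positivity) (by norm_num)
      _ = 1 / (n : ℝ) ^ 3 * (2 / (n : ℝ) ^ 11) := by field_simp
      _ ≤ 1 / (n : ℝ) ^ 3 * (1 / 5) := by
          apply mul_le_mul_of_nonneg_left _ (by positivity)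
          rw [div_le_div_iff₀ (by positivity) (by norm_num)]
          linarith
      _ = r / 5 := by rw [hr]; ring
  have hf : Differentiable ℂ (fun w : ℂ => w ^ n + c) :=
    (differentiable_id.pow n).add_const c
  have hF : Differentiable ℂ ((fun w : ℂ => w ^ n + c)^[3]) := hf.iterate 3
  obtain ⟨z, hz, hd⟩ := capture hF (z₀ := c) (r := ‖c‖ * r) (by positivity) (by
    intro z hz
    have h4 : ‖z - c‖ ≤ ‖c‖ * r := by rw [← dist_eq_norm]; exact hz
    have h5 : ‖z / c - 1‖ ≤ r := by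
      have e : z / c - 1 = (z - c) / c := by field_simp
      rw [e, norm_div, div_le_iff₀ hcpos]; linarith
    have h6 : (fun w : ℂ => w ^ n + c)^[3] z = c * g (g (g (z / c))) := by
      have e : z = c * (z / c) := by field_simp
      conv_lhs => rw [e]
      rw [Function.iterate_succ_apply', Function.iterate_succ_apply', Function.iterate_succ_apply',
        Function.iterate_zero_apply]
      rw [hconj, hconj, hconj]
    rw [h6]
    have e : c * g (g (g (z / c))) - c = c * (g (g (g (z / c))) - 1) := by ring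
    rw [e, norm_mul]
    have := mul_le_mul_of_nonneg_left (key _ h5) hcpos.le
    linarith [show ‖c‖ * (r / 5) = ‖c‖ * r / 5 by ring])
  exact ⟨z, 3, by norm_num, hz, hd⟩

/-- points of the normalised critical orbit of a parameter of `M_n`. -/
lemma Y_le {n : ℕ} (hn : 2 ≤ n) {c u : ℂ} (hcu : c ^ (n - 1) = u) (hM : c ∈ multibrot n) (j : ℕ)
    (hY : 1 ≤ ‖Y n j u‖) : ‖u‖ * ‖Y n j u‖ ^ (n - 1) ≤ 2 := by
  by_contra hcon
  push Not at hcon
  have hX : ‖X n (j + 1) c‖ = ‖c‖ * ‖Y n j u‖ := by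
    rw [X_eq (by omega), hcu, norm_mul]
  apply hM
  refine Pool.Agent.LeadMultibrot.escape_zero hn (j + 1) ?_ ?_
  · show ‖c‖ ≤ ‖X n (j + 1) c‖
    rw [hX]
    nlinarith [norm_nonneg c]
  · show 2 < ‖X n (j + 1) c‖ ^ (n - 1)
    rw [hX, mul_pow, ← norm_pow, hcu]
    exact hcon

end Pool.Agent.helper69.MB
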