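import Mathlib
import Pool.Agent.helper69.Multibrot.YPlane

/-!
# Misiurewicz parameters in the `u`-plane
-/

set_option autoImplicit false
open Filter Topology Metric

namespace Pool.Agent.helper69.MB

open Pool.Agent.helper16.Multibrot

/-- Linearisation of the normalised critical orbit near a parameter `u₀` for which the second point
`p = 1 + u₀` is a repelling fixed point, `p ^ n = 1`. -/
lemma Y_est {n : ℕ} {u₀ p : ℂ} (hu : 0 < ‖u₀‖) (hu2 : ‖u₀‖ ≤ 2) (hn : 100 ≤ n * ‖u₀‖)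
    (hp : ‖p‖ = 1) (hpu : p = 1 + u₀) (hpn : p ^ n = 1) (j : ℕ) :
    ∃ a : ℂ, (n * ‖u₀‖) ^ j / 2 + 1 / 4 ≤ ‖a‖ ∧ ‖a‖ ≤ 2 * (n * ‖u₀‖) ^ j - 1 / 4 ∧
      ∀ η : ℂ, (n * ‖u₀‖) ^ j * ‖η‖ ≤ ‖u₀‖ / 20 →
        ‖Y n (j + 1) (u₀ + η) - p - a * η‖ ≤ 5 * ((n * ‖u₀‖) ^ j * ‖η‖) ^ 2 / ‖u₀‖ := by
  have hn50 : (50 : ℝ) ≤ n := by nlinarith
  have hn0 : (0 : ℝ) < n := by linarith
  have hn1 : 1 ≤ n := by
    have : (1 : ℝ) ≤ n := by linarith
    exact_mod_cast this
  set Λ : ℝ := n * ‖u₀‖ with hΛ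
  have hΛ0 : 0 < Λ := by linarith
  induction j with
  | zero =>
    refine ⟨1, by norm_num, by norm_num, ?_⟩
    intro η hη
    have e : Y n (0 + 1) (u₀ + η) - p - 1 * η = 0 := by
      rw [zero_add, Y_one, hpu]; ring
    rw [e, norm_zero]
    positivity
  | succ j ih =>
    obtain ⟨a, ha1, ha2, hest⟩ := ih
    set lam : ℂ := n * p ^ (n - 1) * u₀ with hlam
    have hlamn : ‖lam‖ = Λ := by
      rw [hlam, norm_mul, norm_mul, norm_pow, hp, one_pow, mul_one, Complex.norm_natCast]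
    set N : ℝ := Λ ^ j with hN
    have hN1 : 1 ≤ N := by rw [hN]; exact one_le_pow₀ (by linarith)
    have hN0 : 0 < N := by linarith
    have hNs : Λ ^ (j + 1) = N * Λ := by rw [pow_succ]
    refine ⟨lam * a + 1, ?_, ?_, ?_⟩
    · have h4 : ‖lam * a‖ - ‖(1 : ℂ)‖ ≤ ‖lam * a + 1‖ := by
        have := norm_sub_norm_le (lam * a) (-1)
        rw [norm_neg] at this
        refine this.trans (le_of_eq ?_)
        congr 1; ring
      rw [norm_mul, hlamn, norm_one] at h4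
      rw [hNs]
      nlinarith
    · refine (norm_add_le _ _).trans ?_
      rw [norm_mul, hlamn, norm_one, hNs]
      nlinarith
    · intro η hη
      rw [hNs] at hη ⊢
      have hη0 := norm_nonneg η
      set t : ℝ := N * ‖η‖ with ht
      have ht0 : 0 ≤ t := by positivity
      have hηt : ‖η‖ ≤ t := by rw [ht]; nlinarith
      have hΛt : Λ * t ≤ ‖u₀‖ / 20 := by
        have : Λ * t = N * Λ * ‖η‖ := by rw [ht]; ring
        rw [this]; exact hη
      have hnt : (n : ℝ) * t ≤ 1 / 20 := by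
        have h1 : ‖u₀‖ * (n * t) ≤ ‖u₀‖ * (1 / 20) := by
          have : ‖u₀‖ * (n * t) = Λ * t := by rw [hΛ]; ring
          rw [this]; linarith
        exact le_of_mul_le_mul_left h1 hu
      have hst : t ≤ ‖u₀‖ / 20 := by nlinarith
      have hP := hest η hst
      set P : ℂ := Y n (j + 1) (u₀ + η) - p with hPdef
      have hq : 5 * t ^ 2 / ‖u₀‖ ≤ t / 400 := by
        rw [div_le_div_iff₀ hu (by norm_num)]
        nlinarith
      have hPn : ‖P‖ ≤ (201 / 100) * t := by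
        have h6 : ‖P‖ ≤ ‖a * η‖ + ‖P - a * η‖ := by
          have := norm_add_le (a * η) (P - a * η)
          rwa [add_sub_cancel] at this
        rw [norm_mul] at h6
        have h7 : ‖a‖ * ‖η‖ ≤ 2 * t := by
          have := mul_le_mul_of_nonneg_right ha2 hη0
          rw [ht]; nlinarith
        linarith
      have hnP : (n : ℝ) * ‖P‖ ≤ (201 / 100) * (n * t) := by nlinarith
      have hnP1 : (n : ℝ) * ‖P‖ ≤ 1 / 9 := by linarith
      have hnP0 : 0 ≤ (n : ℝ) * ‖P‖ := by positivity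
      have h5 := taylor_unit (n := n) hn1 hp (d := P) (by linarith)
      set E : ℂ := (p + P) ^ n - p ^ n - n * p ^ (n - 1) * P with hE
      have hpP : ‖(p + P) ^ n - 1‖ ≤ (n : ℝ) * ‖P‖ * (10 / 9) := by
        have e : (p + P) ^ n - 1 = n * p ^ (n - 1) * P + E := by rw [hE, hpn]; ring
        rw [e]
        refine (norm_add_le _ _).trans ?_
        rw [norm_mul, norm_mul, norm_pow, hp, one_pow, mul_one, Complex.norm_natCast]
        nlinarith
      have e : Y n (j + 1 + 1) (u₀ + η) - p - (lam * a + 1) * η =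
          lam * (P - a * η) + u₀ * E + η * ((p + P) ^ n - 1) := by
        rw [Y_succ]
        have h9 : Y n (j + 1) (u₀ + η) = p + P := by rw [hPdef]; ring
        rw [h9, hlam, hE, hpn]
        linear_combination (-1 : ℂ) * hpu
      rw [e]
      refine (norm_add₃_le).trans ?_
      rw [norm_mul lam, norm_mul u₀, norm_mul η, hlamn]
      have e13 : N * Λ * ‖η‖ = Λ * t := by rw [ht]; ring
      rw [e13, le_div_iff₀ hu]
      have h11 : Λ * ‖P - a * η‖ * ‖u₀‖ ≤ Λ * (5 * t ^ 2) := by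
        have : ‖P - a * η‖ * ‖u₀‖ ≤ 5 * t ^ 2 := by
          rw [← le_div_iff₀ hu]; exact hP
        nlinarith
      have h12 : ((n : ℝ) * ‖P‖) ^ 2 ≤ ((201 / 100) * (n * t)) ^ 2 :=
        pow_le_pow_left₀ (by positivity) hnP 2
      have h13 : ‖u₀‖ * ‖E‖ * ‖u₀‖ ≤ ((201 / 100) * (Λ * t)) ^ 2 := by
        have h14 : ‖E‖ ≤ ((201 / 100) * (n * t)) ^ 2 := h5.trans h12
        have h15 : ((201 / 100) * (Λ * t)) ^ 2 = ‖u₀‖ * ‖u₀‖ * ((201 / 100) * (n * t)) ^ 2 := by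
          rw [hΛ]; ring
        rw [h15]
        have h16 : 0 ≤ ‖u₀‖ * ‖u₀‖ := by positivity
        nlinarith
      have h17 : ‖η‖ * ‖(p + P) ^ n - 1‖ * ‖u₀‖ ≤ (Λ * t) ^ 2 * (5 / 200) := by
        have h18 : ‖(p + P) ^ n - 1‖ ≤ (5 / 2) * (n * t) := by linarith
        have h19 : ‖η‖ * ‖(p + P) ^ n - 1‖ ≤ t * ((5 / 2) * (n * t)) :=
          mul_le_mul hηt h18 (norm_nonneg _) ht0
        have h20 : ‖η‖ * ‖(p + P) ^ n - 1‖ * ‖u₀‖ ≤ t * ((5 / 2) * (n * t)) * ‖u₀‖ :=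
          mul_le_mul_of_nonneg_right h19 hu.le
        have h21 : t * ((5 / 2) * (n * t)) * ‖u₀‖ = (5 / 2) * (Λ * t ^ 2) := by rw [hΛ]; ring
        have h22 : (Λ * t) ^ 2 = Λ * (Λ * t ^ 2) := by ring
        rw [h21] at h20
        rw [h22]
        have h23 : 0 ≤ Λ * t ^ 2 := by positivity
        nlinarith
      have h24 : Λ * (5 * t ^ 2) ≤ (5 / 100) * (Λ * t) ^ 2 := by
        have h22 : (Λ * t) ^ 2 = Λ * (Λ * t ^ 2) := by ring
        rw [h22]
        have h23 : 0 ≤ Λ * t ^ 2 := by positivity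
        nlinarith
      nlinarith [sq_nonneg (Λ * t)]

/-- If `u₀ ≠ 0`, `‖1 + u₀‖ = 1`, then for all large `n` such that `(1 + u₀) ^ n = 1`, all the
parameters `c` with `c ^ (n - 1) = u₀` are limits of hyperbolic parameters of `z ^ n + c`. -/
lemma mis_u {u₀ : ℂ} (hu0 : u₀ ≠ 0) (hp : ‖1 + u₀‖ = 1) :
    ∃ N : ℕ, ∀ n : ℕ, N ≤ n → (1 + u₀) ^ n = 1 → ∀ c : ℂ, c ^ (n - 1) = u₀ →
      c ∈ closure (hyperbolic n) := by
  have hu : 0 < ‖u₀‖ := norm_pos_iff.mpr hu0
  have hu2 : ‖u₀‖ ≤ 2 := by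
    have h1 : u₀ = (1 + u₀) - 1 := by ring
    rw [h1]
    refine (norm_sub_le _ _).trans ?_
    rw [hp, norm_one]; norm_num
  set w : ℂ := Complex.log (-1 / u₀) with hw
  obtain ⟨N, hN⟩ := exists_nat_gt (max (100 / ‖u₀‖) (2000 * (‖w‖ + 1) / ‖u₀‖))
  refine ⟨max N 100, fun n hn hpn c₀ hc₀ => ?_⟩
  have hNn : (N : ℝ) ≤ n := by exact_mod_cast (le_max_left _ _).trans hn
  have hn100 : 100 ≤ n := (le_max_right _ _).trans hn
  have hn100r : (100 : ℝ) ≤ n := by exact_mod_cast hn100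
  have hn0 : (0 : ℝ) < n := by linarith
  have hnC : (n : ℂ) ≠ 0 := by
    have : n ≠ 0 := by omega
    exact_mod_cast this
  have hΛ : 100 ≤ (n : ℝ) * ‖u₀‖ := by
    have h1 : 100 / ‖u₀‖ < n := lt_of_lt_of_le (lt_of_le_of_lt (le_max_left _ _) hN) hNn
    rw [div_lt_iff₀ hu] at h1; linarith
  have hwn : 2000 * (‖w‖ + 1) ≤ n * ‖u₀‖ := by
    have h1 : 2000 * (‖w‖ + 1) / ‖u₀‖ < n :=
      lt_of_lt_of_le (lt_of_le_of_lt (le_max_right _ _) hN) hNn
    rw [div_lt_iff₀ hu] at h1; linarith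
  set p : ℂ := 1 + u₀ with hpdef
  have hc00 : c₀ ≠ 0 := by
    intro h; rw [h, zero_pow (by omega)] at hc₀; exact hu0 hc₀.symm
  have hcpos : 0 < ‖c₀‖ := norm_pos_iff.mpr hc00
  set Λ : ℝ := (n : ℝ) * ‖u₀‖ with hΛdef
  rw [Metric.mem_closure_iff]
  intro ε hε
  -- choose the generation
  obtain ⟨k, hk⟩ : ∃ k : ℕ, ‖c₀‖ * (1 / Λ) ^ k < ε := by
    obtain ⟨k, hk⟩ := exists_pow_lt_of_lt_one (show 0 < ε / ‖c₀‖ by positivity)
      (show (1 / Λ) < 1 by rw [div_lt_one (by linarith)]; linarith)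
    refine ⟨k, ?_⟩
    rw [lt_div_iff₀ hcpos] at hk; linarith
  obtain ⟨a, ha1, ha2, hest⟩ := Y_est (n := n) hu hu2 hΛ hp hpdef hpn k
  set M : ℝ := Λ ^ k with hM
  have hM1 : 1 ≤ M := by rw [hM]; exact one_le_pow₀ (by linarith)
  have hM0 : 0 < M := by linarith
  set r : ℝ := ‖u₀‖ / (20 * M) with hr
  have hr0 : 0 < r := by positivity
  have hMr : M * r = ‖u₀‖ / 20 := by rw [hr]; field_simp
  have hr1 : r ≤ ‖u₀‖ / 20 := by nlinarith
  -- the branch of the `n`-th root of `-1 / u`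
  have hv0 : (-1 / u₀ : ℂ) ≠ 0 := by
    apply div_ne_zero (by norm_num) hu0
  set τ₀ : ℂ := p * Complex.exp (w / n) with hτ₀
  have hτ₀n : τ₀ ^ n = -1 / u₀ := by
    rw [hτ₀, mul_pow, ← Complex.exp_nat_mul, mul_div_cancel₀ _ hnC, hw, Complex.exp_log hv0, hpn,
      one_mul]
  have hpτ : ‖p - τ₀‖ ≤ ‖u₀‖ / 1000 := by
    have h3 : p - τ₀ = - (p * (Complex.exp (w / n) - 1)) := by rw [hτ₀]; ring
    rw [h3, norm_neg, norm_mul, hp, one_mul]
    have h4 : ‖w / n‖ ≤ ‖u₀‖ / 2000 := by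
      rw [norm_div, Complex.norm_natCast, div_le_div_iff₀ hn0 (by norm_num)]
      linarith
    have h6 := Complex.norm_exp_sub_one_le (x := w / n) (by linarith)
    linarith
  have hτ₀1 : ‖τ₀‖ ≤ 2 := by
    have h3 : τ₀ = p - (p - τ₀) := by ring
    rw [h3]
    refine (norm_sub_le _ _).trans ?_
    linarith
  set F : ℂ → ℂ := fun u => Y n (k + 1) u - τ₀ * Complex.exp (-Complex.log (u / u₀) / n) with hF
  have hslit : ∀ u ∈ closedBall u₀ r, u / u₀ ∈ Complex.slitPlane ∧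
      ‖u / u₀ - 1‖ ≤ ‖u - u₀‖ / ‖u₀‖ ∧ ‖u - u₀‖ / ‖u₀‖ ≤ 1 / 20 := by
    intro u hc
    have h3 : ‖u - u₀‖ ≤ r := by rw [← dist_eq_norm]; exact hc
    have h4 : ‖u / u₀ - 1‖ = ‖u - u₀‖ / ‖u₀‖ := by
      have : u / u₀ - 1 = (u - u₀) / u₀ := by field_simp
      rw [this, norm_div]
    have h5 : ‖u - u₀‖ / ‖u₀‖ ≤ 1 / 20 := by
      rw [div_le_iff₀ hu]; linarith
    refine ⟨?_, h4.le, h5⟩
    left
    have h6 : |(u / u₀ - 1).re| ≤ 1 / 20 := by
      refine (Complex.abs_re_le_norm _).trans ?_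
      rw [h4]; exact h5
    have h7 := (abs_le.mp h6).1
    rw [Complex.sub_re, Complex.one_re] at h7
    linarith
  have hlog : ∀ u ∈ closedBall u₀ r, ‖Complex.log (u / u₀)‖ ≤ 3 / 2 * (‖u - u₀‖ / ‖u₀‖) := by
    intro u hu'
    obtain ⟨-, h4, h5⟩ := hslit u hu'
    have h6 := Complex.norm_log_one_add_half_le_self (z := u / u₀ - 1) (by linarith)
    rw [add_sub_cancel] at h6
    linarith
  have hFdiff : DifferentiableOn ℂ F (closedBall u₀ r) := by
    intro u hc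
    have h3 := (hslit u hc).1
    have h4 : DifferentiableAt ℂ (fun u : ℂ => Complex.log (u / u₀)) u :=
      DifferentiableAt.clog (f := fun u : ℂ => u / u₀) (differentiableAt_id.div_const u₀) h3
    have h5 : DifferentiableAt ℂ F u := by
      apply DifferentiableAt.sub (Y_differentiable n (k + 1) u)
      apply DifferentiableAt.const_mul
      exact (h4.neg.div_const (n : ℂ)).cexp
    exact h5.differentiableWithinAt
  have hτ : ∀ u ∈ closedBall u₀ r,
      ‖τ₀ * Complex.exp (-Complex.log (u / u₀) / n) - τ₀‖ ≤ 6 / 100 * ‖u - u₀‖ := by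
    intro u hc
    have h5 := hlog u hc
    have h5' := (hslit u hc).2.2
    have h7 : ‖-Complex.log (u / u₀) / n‖ ≤ 3 / 2 * (‖u - u₀‖ / Λ) := by
      rw [norm_div, norm_neg, Complex.norm_natCast, div_le_iff₀ hn0]
      refine h5.trans (le_of_eq ?_)
      rw [hΛdef]; field_simp
    have h7' : ‖u - u₀‖ / Λ ≤ ‖u - u₀‖ / 100 :=
      div_le_div_of_nonneg_left (norm_nonneg _) (by norm_num) hΛ
    have h7'' : ‖u - u₀‖ ≤ 1 / 10 := by
      rw [div_le_iff₀ hu] at h5'; linarith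
    have h8 := Complex.norm_exp_sub_one_le (x := -Complex.log (u / u₀) / n) (by linarith)
    have h9 : τ₀ * Complex.exp (-Complex.log (u / u₀) / n) - τ₀ =
        τ₀ * (Complex.exp (-Complex.log (u / u₀) / n) - 1) := by ring
    rw [h9, norm_mul]
    have h10 : ‖Complex.exp (-Complex.log (u / u₀) / n) - 1‖ ≤ 3 / 100 * ‖u - u₀‖ := by linarith
    calc ‖τ₀‖ * ‖Complex.exp (-Complex.log (u / u₀) / n) - 1‖ ≤ 2 * (3 / 100 * ‖u - u₀‖) :=
          mul_le_mul hτ₀1 h10 (norm_nonneg _) (by norm_num)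
      _ = _ := by ring
  have hF₀ : F u₀ = p - τ₀ := by
    have h3 : Y n (k + 1) u₀ = p := by
      have h4 := hest 0 (by rw [norm_zero, mul_zero]; positivity)
      simp only [add_zero, mul_zero, norm_zero, sub_zero] at h4
      have h5 : ‖Y n (k + 1) u₀ - p‖ ≤ 0 := by
        refine h4.trans (by norm_num)
      exact sub_eq_zero.mp (norm_le_zero_iff.mp h5)
    simp only [hF, h3, div_self hu0, Complex.log_one, neg_zero, zero_div, Complex.exp_zero,
      mul_one]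
  -- lower bound for the variation of `F`
  have hlow : ∀ u ∈ closedBall u₀ r, M * ‖u - u₀‖ * (1 / 6) ≤ ‖F u - F u₀‖ := by
    intro u hc
    have h3 : ‖u - u₀‖ ≤ r := by rw [← dist_eq_norm]; exact hc
    set η : ℂ := u - u₀ with hη
    have hcη : u = u₀ + η := by rw [hη]; ring
    have h4 : M * ‖η‖ ≤ ‖u₀‖ / 20 := by
      rw [← hMr]; exact mul_le_mul_of_nonneg_left h3 hM0.le
    have h5 := hest η h4
    rw [← hcη] at h5
    have h6 := hτ u hc
    have e : a * η = (F u - F u₀) - (Y n (k + 1) u - p - a * η) +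
        (τ₀ * Complex.exp (-Complex.log (u / u₀) / n) - τ₀) := by
      rw [hF₀]; simp only [hF]; ring
    have h7 : ‖a * η‖ ≤ ‖F u - F u₀‖ + ‖Y n (k + 1) u - p - a * η‖ +
        ‖τ₀ * Complex.exp (-Complex.log (u / u₀) / n) - τ₀‖ := by
      conv_lhs => rw [e]
      refine (norm_add_le _ _).trans ?_
      gcongr
      exact norm_sub_le _ _
    rw [norm_mul] at h7
    have h10 := norm_nonneg η
    have h8 : (M / 2) * ‖η‖ ≤ ‖a‖ * ‖η‖ := mul_le_mul_of_nonneg_right (by linarith) h10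
    have h11 : 0 ≤ M * ‖η‖ := by positivity
    have h9 : 5 * (M * ‖η‖) ^ 2 / ‖u₀‖ ≤ M * ‖η‖ * (1 / 4) := by
      rw [div_le_iff₀ hu]
      nlinarith
    have h12 : ‖η‖ ≤ M * ‖η‖ := by nlinarith
    linarith
  have hball := DiffContOnCl.ball_subset_image_closedBall (f := F) (z₀ := u₀) (r := r)
    (ε := ‖u₀‖ / 120) ((hFdiff.mono closure_ball_subset_closedBall).diffContOnCl) hr0 (by
      intro z hz
      have h3 : ‖z - u₀‖ = r := by rw [← dist_eq_norm]; exact hz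
      refine le_trans ?_ (hlow z (sphere_subset_closedBall hz))
      rw [h3, hMr]; linarith) (by
      have h3 : ∀ᶠ z in 𝓝[≠] u₀, F z ≠ F u₀ := by
        rw [eventually_nhdsWithin_iff]
        filter_upwards [closedBall_mem_nhds u₀ hr0] with z hz hzne
        intro hcon
        have h4 := hlow z hz
        rw [hcon, sub_self, norm_zero] at h4
        have h5 : 0 < ‖z - u₀‖ := norm_pos_iff.mpr (sub_ne_zero.mpr hzne)
        nlinarith [mul_pos hM0 h5]
      exact h3.frequently.filter_mono nhdsWithin_le_nhds)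
  have h0 : (0 : ℂ) ∈ ball (F u₀) (‖u₀‖ / 120 / 2) := by
    rw [mem_ball, dist_eq_norm, hF₀, zero_sub, norm_neg]
    linarith
  obtain ⟨u, hc, hFc⟩ := hball h0
  have hslitu := hslit u hc
  have hune : u / u₀ ≠ 0 := Complex.slitPlane_ne_zero hslitu.1
  have hun0 : u ≠ 0 := by
    intro h; rw [h, zero_div] at hune; exact hune rfl
  have hn1C : ((n - 1 : ℕ) : ℂ) ≠ 0 := by
    have : n - 1 ≠ 0 := by omega
    exact_mod_cast this
  have hn1r : (99 : ℝ) ≤ ((n - 1 : ℕ) : ℝ) := by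
    have : 99 ≤ n - 1 := by omega
    exact_mod_cast this
  set c : ℂ := c₀ * Complex.exp (Complex.log (u / u₀) / ((n - 1 : ℕ) : ℂ)) with hcdef
  have hcu : c ^ (n - 1) = u := by
    rw [hcdef, mul_pow, ← Complex.exp_nat_mul, mul_div_cancel₀ _ hn1C, Complex.exp_log hune, hc₀]
    field_simp
  refine ⟨c, ?_, ?_⟩
  · apply hyperbolic_of_X_eq_zero (k := k + 2) (by omega)
    have h3 : Y n (k + 1) u = τ₀ * Complex.exp (-Complex.log (u / u₀) / n) := sub_eq_zero.mp hFc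
    rw [X_eq (by omega), hcu, Y_succ, h3, mul_pow, hτ₀n, ← Complex.exp_nat_mul,
      mul_div_cancel₀ _ hnC, Complex.exp_neg, Complex.exp_log hune]
    field_simp
    ring
  · rw [dist_comm, dist_eq_norm]
    have e : c - c₀ = c₀ * (Complex.exp (Complex.log (u / u₀) / ((n - 1 : ℕ) : ℂ)) - 1) := by
      rw [hcdef]; ring
    rw [e, norm_mul]
    refine lt_of_le_of_lt (mul_le_mul_of_nonneg_left ?_ hcpos.le) hk
    have h3 : ‖u - u₀‖ ≤ r := by rw [← dist_eq_norm]; exact hc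
    have h4 : ‖u - u₀‖ / ‖u₀‖ ≤ 1 / (20 * M) := by
      rw [div_le_div_iff₀ hu (by positivity)]
      have : r * (20 * M) = ‖u₀‖ := by rw [hr]; field_simp
      nlinarith
    have h5 := hlog u hc
    have h6 : ‖Complex.log (u / u₀) / ((n - 1 : ℕ) : ℂ)‖ ≤ 1 / (20 * M) := by
      rw [norm_div, Complex.norm_natCast, div_le_iff₀ (by linarith)]
      have h7 : 0 < 1 / (20 * M) := by positivity
      have h8 : 1 / (20 * M) * 99 ≤ 1 / (20 * M) * ((n - 1 : ℕ) : ℝ) :=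
        mul_le_mul_of_nonneg_left hn1r h7.le
      linarith
    have h7 : 1 / (20 * M) ≤ 1 / 20 := one_div_le_one_div_of_le (by norm_num) (by linarith)
    have h8 := Complex.norm_exp_sub_one_le
      (x := Complex.log (u / u₀) / ((n - 1 : ℕ) : ℂ)) (by linarith)
    have h9 : 2 * (1 / (20 * M)) ≤ (1 / Λ) ^ k := by
      rw [one_div_pow, ← hM]
      rw [show 2 * (1 / (20 * M)) = 1 / (10 * M) by field_simp; norm_num]
      exact one_div_le_one_div_of_le hM0 (by linarith)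
    linarith

end Pool.Agent.helper69.MB
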