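import Mathlib
import Pool.Agent.helper69.Multibrot.DegreeDefs

/-!
# Windows of degrees
-/

set_option autoImplicit false
open Filter Topology

namespace Pool.Agent.helper69.MB

/-- For every `D`, all the windows of `D` consecutive integers beyond some bound contain at most
`k` elements of `A`. -/
def Sparse (k : ℕ) (A : Set ℕ) : Prop :=
  ∀ D : ℕ, ∃ N : ℕ, ∀ m : ℕ, N ≤ m → (A ∩ Set.Ico m (m + D)).ncard ≤ k

lemma Sparse.mono {k l : ℕ} {A B : Set ℕ} (h : Sparse k A) (hBA : B ⊆ A) (hkl : k ≤ l) :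
    Sparse l B := by
  intro D
  obtain ⟨N, hN⟩ := h D
  refine ⟨N, fun m hm => le_trans ?_ ((hN m hm).trans hkl)⟩
  exact Set.ncard_le_ncard (Set.inter_subset_inter_left _ hBA)
    ((Set.finite_Ico _ _).subset Set.inter_subset_right)

lemma Sparse.union {k l : ℕ} {A B : Set ℕ} (h : Sparse k A) (h' : Sparse l B) :
    Sparse (k + l) (A ∪ B) := by
  intro D
  obtain ⟨N, hN⟩ := h D
  obtain ⟨N', hN'⟩ := h' D
  refine ⟨max N N', fun m hm => ?_⟩
  rw [Set.union_inter_distrib_right]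
  exact (Set.ncard_union_le _ _).trans (add_le_add (hN m ((le_max_left _ _).trans hm))
    (hN' m ((le_max_right _ _).trans hm)))

lemma sparse_of_bounded {A : Set ℕ} (h : ∃ N : ℕ, ∀ n ∈ A, n < N) : Sparse 0 A := by
  intro D
  obtain ⟨N, hN⟩ := h
  refine ⟨N, fun m hm => ?_⟩
  have : A ∩ Set.Ico m (m + D) = ∅ := by
    ext n
    simp only [Set.mem_inter_iff, Set.mem_Ico, Set.mem_empty_iff_false, iff_false]
    rintro ⟨h1, h2, -⟩
    have := hN n h1
    omega
  rw [this]; simp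

lemma Sparse.banachNull {k : ℕ} {A : Set ℕ} (h : Sparse k A) : BanachNull A := by
  intro ε hε
  obtain ⟨D, hD⟩ := exists_nat_gt (4 * (k : ℝ) / ε)
  have hk0 : (0 : ℝ) ≤ k := Nat.cast_nonneg k
  have hD0 : (0 : ℝ) < D := lt_of_le_of_lt (by positivity) hD
  have hDpos : 0 < D := by exact_mod_cast hD0
  have hDε : 4 * (k : ℝ) < ε * D := by
    rw [div_lt_iff₀ hε] at hD; linarith
  obtain ⟨N, hN⟩ := h D
  obtain ⟨L₀, hL₀⟩ := exists_nat_gt (2 * ((N : ℝ) + k) / ε)
  refine ⟨L₀, fun L hL m => ?_⟩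
  have hLr : (L₀ : ℝ) ≤ L := by exact_mod_cast hL
  have hLε : 2 * ((N : ℝ) + k) < ε * L := by
    rw [div_lt_iff₀ hε] at hL₀
    nlinarith
  set m' : ℕ := max m N with hm'
  have hind : ∀ i : ℕ, (A ∩ Set.Ico m' (m' + i * D)).ncard ≤ k * i := by
    intro i
    induction i with
    | zero => simp
    | succ i ih =>
      have e : A ∩ Set.Ico m' (m' + (i + 1) * D) =
          (A ∩ Set.Ico m' (m' + i * D)) ∪ (A ∩ Set.Ico (m' + i * D) (m' + i * D + D)) := by
        rw [← Set.inter_union_distrib_left]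
        congr 1
        ext n
        simp only [Set.mem_Ico, Set.mem_union]
        rw [Nat.add_mul, Nat.one_mul]
        omega
      rw [e]
      refine (Set.ncard_union_le _ _).trans ?_
      have h1 := hN (m' + i * D) (le_trans (le_max_right _ _) (Nat.le_add_right _ _))
      have e2 : k * (i + 1) = k * i + k := by ring
      omega
  set I : ℕ := L / D + 1 with hI
  have hLI : L ≤ I * D := by
    rw [hI]
    have := Nat.div_add_mod L D
    have h2 := Nat.mod_lt L hDpos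
    nlinarith
  have hsub : A ∩ Set.Ico m (m + L) ⊆ Set.Iio N ∪ (A ∩ Set.Ico m' (m' + I * D)) := by
    rintro n ⟨hnA, hn1, hn2⟩
    by_cases hnN : n < N
    · exact Or.inl hnN
    · refine Or.inr ⟨hnA, max_le hn1 (not_lt.mp hnN), ?_⟩
      have : m ≤ m' := le_max_left _ _
      show n < m' + I * D
      omega
  have hfin : (Set.Iio N ∪ (A ∩ Set.Ico m' (m' + I * D))).Finite :=
    (Set.finite_Iio N).union ((Set.finite_Ico _ _).subset Set.inter_subset_right)
  have h1 : (A ∩ Set.Ico m (m + L)).ncard ≤ N + k * I := by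
    refine (Set.ncard_le_ncard hsub hfin).trans ((Set.ncard_union_le _ _).trans ?_)
    refine add_le_add ?_ (hind I)
    have : (Set.Iio N : Set ℕ).ncard = N := by
      rw [← Finset.coe_Iio, Set.ncard_coe_finset, Nat.card_Iio]
    exact this.le
  have h2 : ((A ∩ Set.Ico m (m + L)).ncard : ℝ) ≤ N + k * I := by exact_mod_cast h1
  have h3 : (I : ℝ) ≤ L / D + 1 := by
    rw [hI]; push_cast
    have : ((L / D : ℕ) : ℝ) ≤ (L : ℝ) / D := Nat.cast_div_le
    linarith
  have hL0 : (0 : ℝ) ≤ L := Nat.cast_nonneg L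
  have h4 : (k : ℝ) * ((L : ℝ) / D) ≤ ε * L / 4 := by
    rw [← mul_div_assoc, div_le_div_iff₀ hD0 (by norm_num)]
    nlinarith
  have h5 : (k : ℝ) * I ≤ k * (L / D + 1) := mul_le_mul_of_nonneg_left h3 hk0
  linarith

/-- If `z ^ n` is close to one of two given numbers for all large `n ∈ A`, where `z` has modulus
one and is not a root of unity, then `A` is sparse. -/
lemma sparse_two_class {z : ℂ} (hz : ‖z‖ = 1) (hroot : ∀ q : ℕ, 0 < q → z ^ q ≠ 1) (v₁ v₂ : ℂ)
    {A : Set ℕ} (h : ∀ ε : ℝ, 0 < ε → ∃ N : ℕ, ∀ n ∈ A, N ≤ n →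
      ‖z ^ n - v₁‖ * ‖z ^ n - v₂‖ < ε) : Sparse 2 A := by
  intro D
  -- separation
  obtain ⟨δ, hδ, hsep⟩ : ∃ δ : ℝ, 0 < δ ∧ ∀ d : ℕ, 0 < d → d < D → δ ≤ ‖z ^ d - 1‖ := by
    induction D with
    | zero => exact ⟨1, one_pos, fun d _ h => absurd h (Nat.not_lt_zero _)⟩
    | succ D ih =>
      obtain ⟨δ, hδ, h⟩ := ih
      by_cases hD : D = 0
      · refine ⟨1, one_pos, fun d h1 h2 => ?_⟩
        omega
      · have h1 : 0 < ‖z ^ D - 1‖ :=
          norm_pos_iff.mpr (sub_ne_zero.mpr (hroot D (Nat.pos_of_ne_zero hD)))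
        refine ⟨min δ ‖z ^ D - 1‖, lt_min hδ h1, fun d hd1 hd2 => ?_⟩
        rcases Nat.lt_succ_iff_lt_or_eq.mp hd2 with h2 | h2
        · exact (min_le_left _ _).trans (h d hd1 h2)
        · rw [h2]; exact min_le_right _ _
  obtain ⟨N, hN⟩ := h (δ / 2 * (δ / 2)) (by positivity)
  refine ⟨N, fun m hm => ?_⟩
  have hone : ∀ v : ℂ, ({n | n ∈ Set.Ico m (m + D) ∧ ‖z ^ n - v‖ < δ / 2} : Set ℕ).ncard
      ≤ 1 := by
    intro v
    have key : ∀ a b : ℕ, a ∈ Set.Ico m (m + D) → ‖z ^ a - v‖ < δ / 2 →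
        b ∈ Set.Ico m (m + D) → ‖z ^ b - v‖ < δ / 2 → a < b → False := by
      intro a b ha hva hb hvb hab
      have ha1 : m ≤ a := ha.1
      have hb2 : b < m + D := hb.2
      have h1 := hsep (b - a) (by omega) (by omega)
      have h2 : z ^ b - z ^ a = z ^ a * (z ^ (b - a) - 1) := by
        rw [mul_sub, ← pow_add, mul_one]
        congr 2; omega
      have h3 : ‖z ^ b - z ^ a‖ = ‖z ^ (b - a) - 1‖ := by
        rw [h2, norm_mul, norm_pow, hz, one_pow, one_mul]
      have h4 : ‖z ^ b - z ^ a‖ ≤ ‖z ^ b - v‖ + ‖z ^ a - v‖ := by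
        have : z ^ b - z ^ a = (z ^ b - v) - (z ^ a - v) := by ring
        rw [this]; exact norm_sub_le _ _
      linarith
    rw [Set.ncard_le_one ((Set.finite_Ico m (m + D)).subset (fun n hn => hn.1))]
    rintro a ⟨ha, hva⟩ b ⟨hb, hvb⟩
    rcases lt_trichotomy a b with h | h | h
    · exact (key a b ha hva hb hvb h).elim
    · exact h
    · exact (key b a hb hvb ha hva h).elim
  set S₁ : Set ℕ := {n | n ∈ Set.Ico m (m + D) ∧ ‖z ^ n - v₁‖ < δ / 2} with hS₁
  set S₂ : Set ℕ := {n | n ∈ Set.Ico m (m + D) ∧ ‖z ^ n - v₂‖ < δ / 2} with hS₂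
  have hsub : A ∩ Set.Ico m (m + D) ⊆ S₁ ∪ S₂ := by
    rintro n ⟨hnA, hn⟩
    have h1 := hN n hnA (hm.trans hn.1)
    by_contra hcon
    rw [Set.mem_union, not_or] at hcon
    have h5 : δ / 2 ≤ ‖z ^ n - v₁‖ := by
      by_contra h; push Not at h; exact hcon.1 ⟨hn, h⟩
    have h6 : δ / 2 ≤ ‖z ^ n - v₂‖ := by
      by_contra h; push Not at h; exact hcon.2 ⟨hn, h⟩
    have h7 : δ / 2 * (δ / 2) ≤ ‖z ^ n - v₁‖ * ‖z ^ n - v₂‖ :=
      mul_le_mul h5 h6 (by positivity) (norm_nonneg _)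
    linarith
  have hfin : (S₁ ∪ S₂).Finite := by
    apply (Set.finite_Ico m (m + D)).subset
    rintro n (hn | hn)
    · exact hn.1
    · exact hn.1
  refine (Set.ncard_le_ncard hsub hfin).trans ((Set.ncard_union_le _ _).trans ?_)
  exact add_le_add (hone v₁) (hone v₂)

/-- positive values of a function on a finite set of integers are bounded below. -/
lemma finite_gap (s : ℕ) (f : ℕ → ℝ) (hf : ∀ r, 0 ≤ f r) :
    ∃ γ : ℝ, 0 < γ ∧ ∀ r : ℕ, r < s → f r ≠ 0 → γ ≤ f r := by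
  induction s with
  | zero => exact ⟨1, one_pos, fun r h => absurd h (Nat.not_lt_zero _)⟩
  | succ s ih =>
    obtain ⟨γ, hγ, h⟩ := ih
    by_cases hs : f s = 0
    · refine ⟨γ, hγ, fun r h1 h2 => ?_⟩
      rcases Nat.lt_succ_iff_lt_or_eq.mp h1 with h3 | h3
      · exact h r h3 h2
      · rw [h3] at h2; exact absurd hs h2
    · have hs' : 0 < f s := lt_of_le_of_ne (hf s) (Ne.symm hs)
      refine ⟨min γ (f s), lt_min hγ hs', fun r h1 h2 => ?_⟩
      rcases Nat.lt_succ_iff_lt_or_eq.mp h1 with h3 | h3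
      · exact (min_le_left _ _).trans (h r h3 h2)
      · rw [h3]; exact min_le_right _ _

end Pool.Agent.helper69.MB
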