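import Mathlib
import Pool.Agent.helper69.Multibrot.Circle
import Pool.Agent.helper69.Multibrot.YPlane
import Pool.Agent.helper69.Multibrot.MisU
import Pool.Agent.helper69.Multibrot.Sparse

/-!
# Geometric sequences of parameters `c ^ (n - 1) = a * b ^ n`
-/

set_option autoImplicit false
open Filter Topology

namespace Pool.Agent.helper69.MB

open Pool.Agent.helper16.Multibrot

lemma tendsto_log_div : Tendsto (fun n : ℕ => Real.log n / n) atTop (nhds 0) := by
  have h := Real.isLittleO_log_id_atTop.tendsto_div_nhds_zero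
  exact h.comp tendsto_natCast_atTop_atTop

lemma eventually_log_div {ε : ℝ} (hε : 0 < ε) : ∃ N : ℕ, ∀ n : ℕ, N ≤ n → Real.log n / n < ε :=
  eventually_atTop.mp (tendsto_log_div.eventually_lt_const hε)

/-- first dichotomy. -/
lemma second_small {n : ℕ} (hn : 10 ^ 4 ≤ n) {c u : ℂ} (hcu : c ^ (n - 1) = u)
    (hun : 1 / (n : ℝ) ≤ ‖u‖) (hM : c ∈ multibrot n) (hH : c ∉ hyperbolic n) :
    |‖1 + u‖ ^ 2 - 1| ≤ 40 * (Real.log n / n) := by
  have hn4 : (10000 : ℝ) ≤ n := by exact_mod_cast hn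
  have hn0 : (0 : ℝ) < n := by linarith
  have hL := log_div_small hn
  have hL0 : 0 ≤ Real.log n / n := div_nonneg (Real.log_nonneg (by linarith)) hn0.le
  have hu2 : ‖u‖ ≤ 2 := by
    rw [← hcu, norm_pow]; exact Pool.Agent.LeadMultibrot.norm_pow_le_two (by omega) hM
  have h1 := norm_one_add_le (n := n) (by omega) hM (by rw [← norm_pow, hcu]; exact hun) hL
  rw [hcu] at h1
  have h2 : 1 - 16 * (Real.log n / n) < ‖1 + u‖ := by
    by_contra hcon
    push Not at hcon
    exact hH (Pool.Agent.LeadMultibrot.region_two (n := n) (by omega) hu2 hcon hcu)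
  rw [abs_le]
  have h3 := norm_nonneg (1 + u)
  constructor
  · nlinarith
  · nlinarith

/-- second dichotomy, when `‖1 + u‖ = 1`. -/
lemma third_small {u : ℂ} (hu0 : u ≠ 0) (hp : ‖1 + u‖ = 1) :
    ∃ N : ℕ, ∀ n : ℕ, N ≤ n → ∀ c : ℂ, c ^ (n - 1) = u → c ∈ multibrot n → c ∉ hyperbolic n →
      |‖1 + u * (1 + u) ^ n‖ ^ 2 - 1| ≤ 40 * (Real.log n / n) := by
  have hu : 0 < ‖u‖ := norm_pos_iff.mpr hu0
  have hu2 : ‖u‖ ≤ 2 := by
    have h1 : u = (1 + u) - 1 := by ring
    rw [h1]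
    refine (norm_sub_le _ _).trans ?_
    rw [hp, norm_one]; norm_num
  obtain ⟨N, hN⟩ : ∃ N : ℕ, ∀ n : ℕ, N ≤ n → 2 / ‖u‖ < Real.log n :=
    eventually_atTop.mp ((Real.tendsto_log_atTop.comp tendsto_natCast_atTop_atTop).eventually_gt_atTop
      (2 / ‖u‖))
  refine ⟨max N (10 ^ 4), fun n hn c hcu hM hH => ?_⟩
  have hnN : N ≤ n := (le_max_left _ _).trans hn
  have hn4' : 10 ^ 4 ≤ n := (le_max_right _ _).trans hn
  have hn4 : (10000 : ℝ) ≤ n := by exact_mod_cast hn4'
  have hn0 : (0 : ℝ) < n := by linarith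
  have hL := log_div_small hn4'
  have hL0 : 0 ≤ Real.log n / n := div_nonneg (Real.log_nonneg (by linarith)) hn0.le
  set L : ℝ := Real.log n / n with hLdef
  have h2 : 1 - 16 * L < ‖1 + u * (1 + u) ^ n‖ := by
    by_contra hcon
    push Not at hcon
    exact hH (region_three hn4' hcu hu2 hu0 hp hcon)
  have h1 : ‖1 + u * (1 + u) ^ n‖ ≤ 1 + 16 * L := by
    by_contra hcon
    push Not at hcon
    have h3 := Y_le (n := n) (by omega) hcu hM 2
    rw [Y_two] at h3
    have h4 := h3 (by linarith)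
    have h5 : 1 + ((n - 1 : ℕ) : ℝ) * (16 * L) ≤ (1 + 16 * L) ^ (n - 1) :=
      one_add_mul_le_pow (by linarith) (n - 1)
    have h6 : (1 + 16 * L) ^ (n - 1) ≤ ‖1 + u * (1 + u) ^ n‖ ^ (n - 1) :=
      pow_le_pow_left₀ (by linarith) hcon.le _
    have h7 : Real.log n ≤ ((n - 1 : ℕ) : ℝ) * (16 * L) := by
      rw [Nat.cast_sub (by omega), Nat.cast_one]
      have h8 : Real.log n = n * L := by rw [hLdef]; field_simp
      rw [h8]
      nlinarith
    have h9 := hN n hnN
    rw [div_lt_iff₀ hu] at h9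
    have h10 : ‖u‖ * (1 + Real.log n) ≤ ‖u‖ * ‖1 + u * (1 + u) ^ n‖ ^ (n - 1) :=
      mul_le_mul_of_nonneg_left (by linarith) hu.le
    nlinarith
  rw [abs_le]
  have h3 := norm_nonneg (1 + u * (1 + u) ^ n)
  constructor
  · nlinarith
  · nlinarith

/-- factorisation of the third point. -/
lemma third_factor {u w : ℂ} (hp : ‖1 + u‖ = 1) (hw : ‖w‖ = 1) :
    |‖1 + u * w‖ ^ 2 - 1| = ‖w - 1‖ * ‖w - -1 / (1 + u)‖ * ‖u‖ := by
  have hp0 : (1 + u : ℂ) ≠ 0 := by
    intro h; rw [h, norm_zero] at hp; exact zero_ne_one hp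
  have hw0 : w ≠ 0 := by
    intro h; rw [h, norm_zero] at hw; exact zero_ne_one hw
  set u' : ℂ := (starRingEnd ℂ) u with hu'
  set w' : ℂ := (starRingEnd ℂ) w with hw'
  have h1 : (1 + u) * (1 + u') = 1 := by
    have := Complex.mul_conj' (1 + u)
    rw [hp] at this
    simpa [hu'] using this
  have h2 : w * w' = 1 := by
    have := Complex.mul_conj' w
    rw [hw] at this
    simpa [hw'] using this
  have h3 : (((‖1 + u * w‖ ^ 2 - 1 : ℝ)) : ℂ) = (w - 1) * (w - -1 / (1 + u)) * u * w' := by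
    have h4 := Complex.mul_conj' (1 + u * w)
    have h5 : (starRingEnd ℂ) (1 + u * w) = 1 + u' * w' := by simp [hu', hw']
    rw [h5] at h4
    push_cast
    rw [← h4]
    have h6 : u' = -u / (1 + u) := by
      field_simp
      linear_combination h1
    have h7 : (1 + u * w) * (1 + u' * w') - 1 = u * w + u' * w' + u * u' * (w * w') := by ring
    rw [h7, h2, h6]
    have h8 : (w - 1) * (w - -1 / (1 + u)) * u * w' =
        (w * w') * (w - 1 + 1 / (1 + u)) * u - w' * (1 / (1 + u)) * u := by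
      field_simp
      ring
    rw [h8, h2]
    field_simp
    ring
  have h4 : ‖(((‖1 + u * w‖ ^ 2 - 1 : ℝ)) : ℂ)‖ = |‖1 + u * w‖ ^ 2 - 1| := by
    rw [Complex.norm_real, Real.norm_eq_abs]
  have h5 : ‖w'‖ = 1 := by rw [hw', Complex.norm_conj, hw]
  rw [← h4, h3, norm_mul, norm_mul, norm_mul, h5, mul_one]

/-- factorisation of the second point. -/
lemma second_factor {a : ℂ} (ha : a ≠ 0) : ∃ v₁ v₂ : ℂ, ∀ w : ℂ, ‖w‖ = 1 →
    |‖1 + a * w‖ ^ 2 - 1| = ‖w - v₁‖ * ‖w - v₂‖ * ‖a‖ := by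
  -- a root of `a x ^ 2 + ‖a‖ ^ 2 x + conj a`
  set a' : ℂ := (starRingEnd ℂ) a with ha'
  obtain ⟨s, hs⟩ := IsAlgClosed.exists_pow_nat_eq ((a * a') ^ 2 - 4 * a * a') (n := 2)
    (by norm_num)
  refine ⟨(-(a * a') + s) / (2 * a), (-(a * a') - s) / (2 * a), fun w hw => ?_⟩
  set w' : ℂ := (starRingEnd ℂ) w with hw'
  have h2 : w * w' = 1 := by
    have := Complex.mul_conj' w
    rw [hw] at this
    simpa [hw'] using this
  have h3 : (((‖1 + a * w‖ ^ 2 - 1 : ℝ)) : ℂ) =
      (w - (-(a * a') + s) / (2 * a)) * (w - (-(a * a') - s) / (2 * a)) * a * w' := by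
    have h4 := Complex.mul_conj' (1 + a * w)
    have h5 : (starRingEnd ℂ) (1 + a * w) = 1 + a' * w' := by simp [ha', hw']
    rw [h5] at h4
    push_cast
    rw [← h4]
    have h7 : (1 + a * w) * (1 + a' * w') - 1 = a * w + a' * w' + a * a' * (w * w') := by ring
    have h8 : (w - (-(a * a') + s) / (2 * a)) * (w - (-(a * a') - s) / (2 * a)) =
        w ^ 2 + a' * w + ((a * a') ^ 2 - s ^ 2) / (4 * a ^ 2) := by
      field_simp
      ring
    rw [h7, h8, hs, h2]
    have h9 : ((a * a') ^ 2 - ((a * a') ^ 2 - 4 * a * a')) / (4 * a ^ 2) = a' / a := by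
      field_simp
      ring
    rw [h9]
    have h10 : (w ^ 2 + a' * w + a' / a) * a * w' =
        (w * w') * (w * a) + (w * w') * (a' * a) + a' * w' := by
      field_simp
    rw [h10, h2]
    ring
  have h4 : ‖(((‖1 + a * w‖ ^ 2 - 1 : ℝ)) : ℂ)‖ = |‖1 + a * w‖ ^ 2 - 1| := by
    rw [Complex.norm_real, Real.norm_eq_abs]
  have h5 : ‖w'‖ = 1 := by rw [hw', Complex.norm_conj, hw]
  rw [← h4, h3, norm_mul, norm_mul, norm_mul, h5, mul_one]

/-- the exceptional degrees of a given value `u` of `c ^ (n - 1)`. -/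
def excU (u : ℂ) : Set ℕ :=
  {n | 2 ≤ n ∧ ∃ c : ℂ, c ^ (n - 1) = u ∧ c ∈ multibrot n ∧ c ∉ closure (hyperbolic n)}

/-- `‖1 + u‖ = 1`, `1 + u` is not a root of unity. -/
lemma excU_sparse {u : ℂ} (hu0 : u ≠ 0) (hp : ‖1 + u‖ = 1)
    (hroot : ∀ q : ℕ, 0 < q → (1 + u) ^ q ≠ 1) : Sparse 2 (excU u) := by
  have hu : 0 < ‖u‖ := norm_pos_iff.mpr hu0
  obtain ⟨N, hN⟩ := third_small hu0 hp
  apply sparse_two_class hp hroot 1 (-1 / (1 + u))
  intro ε hε
  obtain ⟨N', hN'⟩ := eventually_log_div (show 0 < ε * ‖u‖ / 40 by positivity)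
  refine ⟨max N N', ?_⟩
  rintro n ⟨hn2, c, hcu, hM, hH⟩ hn
  have h1 := hN n ((le_max_left _ _).trans hn) c hcu hM (fun h => hH (subset_closure h))
  have h2 := hN' n ((le_max_right _ _).trans hn)
  rw [third_factor hp (by rw [norm_pow, hp, one_pow])] at h1
  have h3 : ‖(1 + u) ^ n - 1‖ * ‖(1 + u) ^ n - -1 / (1 + u)‖ * ‖u‖ < ε * ‖u‖ := by
    refine lt_of_le_of_lt h1 ?_
    linarith
  exact lt_of_mul_lt_mul_right h3 hu.le

/-- `‖1 + u‖ = 1`, `1 + u` is a root of unity. -/
lemma excU_bounded {u : ℂ} (hu0 : u ≠ 0) (hp : ‖1 + u‖ = 1) {q : ℕ} (hq : 0 < q)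
    (hroot : (1 + u) ^ q = 1) : ∃ N : ℕ, ∀ n ∈ excU u, n < N := by
  have hu : 0 < ‖u‖ := norm_pos_iff.mpr hu0
  set p : ℂ := 1 + u with hpdef
  have hup : u = p - 1 := by rw [hpdef]; ring
  have hp0 : p ≠ 0 := by intro h; rw [h, norm_zero] at hp; exact zero_ne_one hp
  obtain ⟨N₁, hN₁⟩ := third_small hu0 hp
  obtain ⟨N₂, hN₂⟩ := mis_u hu0 hp
  obtain ⟨γ, hγ, hgap⟩ := finite_gap q (fun r => ‖p ^ r - 1‖ * ‖p ^ r - -1 / p‖) (by
    intro r; positivity)
  obtain ⟨N₃, hN₃⟩ := eventually_log_div (show 0 < γ * ‖u‖ / 40 by positivity)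
  -- growth of the fourth point
  obtain ⟨N₄, hN₄⟩ : ∃ N₄ : ℕ, ∀ n : ℕ, N₄ ≤ n → 1 < ‖1 - u * p‖ →
      2 < ‖u‖ * ‖1 - u * p‖ ^ (n - 1) := by
    by_cases h : 1 < ‖1 - u * p‖
    · obtain ⟨k, hk⟩ := pow_unbounded_of_one_lt (2 / ‖u‖) h
      refine ⟨k + 1, fun n hn _ => ?_⟩
      have h1 : ‖1 - u * p‖ ^ k ≤ ‖1 - u * p‖ ^ (n - 1) := pow_le_pow_right₀ h.le (by omega)
      rw [div_lt_iff₀ hu] at hk
      nlinarith
    · exact ⟨0, fun n _ h' => absurd h' h⟩
  refine ⟨max (max N₁ N₂) (max N₃ N₄), ?_⟩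
  rintro n ⟨hn2, c, hcu, hM, hH⟩
  by_contra hcon
  push Not at hcon
  have hn1 : N₁ ≤ n := ((le_max_left _ _).trans (le_max_left _ _)).trans hcon
  have hn2' : N₂ ≤ n := ((le_max_right _ _).trans (le_max_left _ _)).trans hcon
  have hn3 : N₃ ≤ n := ((le_max_left _ _).trans (le_max_right _ _)).trans hcon
  have hn4 : N₄ ≤ n := ((le_max_right _ _).trans (le_max_right _ _)).trans hcon
  have h1 := hN₁ n hn1 c hcu hM (fun h => hH (subset_closure h))
  have h2 := hN₃ n hn3
  have hpn : ‖p ^ n‖ = 1 := by rw [norm_pow, hp, one_pow]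
  rw [third_factor hp hpn] at h1
  have hmod : p ^ n = p ^ (n % q) := by
    conv_lhs => rw [← Nat.div_add_mod n q, pow_add, pow_mul, hroot, one_pow, one_mul]
  have hzero : ‖p ^ n - 1‖ * ‖p ^ n - -1 / p‖ = 0 := by
    by_contra hne
    rw [hmod] at hne
    have h3 := hgap (n % q) (Nat.mod_lt _ hq) hne
    rw [← hmod] at h3
    have h4 : γ * ‖u‖ ≤ ‖p ^ n - 1‖ * ‖p ^ n - -1 / p‖ * ‖u‖ :=
      mul_le_mul_of_nonneg_right h3 hu.le
    rw [← hpdef] at h1
    linarith
  have hne1 : p ^ n ≠ 1 := fun h => hH (hN₂ n hn2' h c hcu)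
  have hw : p ^ n = -1 / p := by
    rcases mul_eq_zero.mp hzero with h | h
    · exact absurd (sub_eq_zero.mp (norm_eq_zero.mp h)) hne1
    · exact sub_eq_zero.mp (norm_eq_zero.mp h)
  -- the orbit
  have hY2 : Y n 2 u = 1 / p := by
    rw [Y_two, ← hpdef, hw, hup]; field_simp; ring
  have hY3 : Y n 3 u = 1 - u * p := by
    rw [Y_succ, hY2, div_pow, one_pow, hw]; field_simp; ring
  -- the fourth point is outside of the unit circle
  have hbig : 1 < ‖1 - u * p‖ := by
    set p' : ℂ := (starRingEnd ℂ) p with hp'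
    have hpp : p * p' = 1 := by
      have := Complex.mul_conj' p
      rw [hp] at this
      simpa [hp'] using this
    have h3 : (1 - u * p) * p' = 1 - (p - p') := by
      linear_combination (-u) * hpp - hup
    have h4 : p - p' = ((2 * p.im : ℝ) : ℂ) * Complex.I := by
      rw [hp', Complex.sub_conj]
    have h5 : ‖1 - u * p‖ ^ 2 = 1 + 4 * p.im ^ 2 := by
      have h6 : ‖1 - u * p‖ = ‖(1 - u * p) * p'‖ := by
        rw [norm_mul, hp', Complex.norm_conj, hp, mul_one]
      rw [h6, h3, h4, ← Complex.normSq_eq_norm_sq, Complex.normSq_apply]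
      simp
      ring
    have h6 : p.im ≠ 0 := by
      intro him
      have h7 : p.re ^ 2 = 1 := by
        have h8 : ‖p‖ ^ 2 = p.re ^ 2 + p.im ^ 2 := by
          rw [← Complex.normSq_eq_norm_sq, Complex.normSq_apply]; ring
        rw [hp, him] at h8
        linarith
      have h8 : p = ((p.re : ℝ) : ℂ) := by
        apply Complex.ext
        · simp
        · simp [him]
      have h9 : p * p = 1 := by
        rw [h8]; exact_mod_cast (by nlinarith : p.re * p.re = 1)
      -- `p = -1`, and `p ^ n = 1`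
      have h10 : p ≠ 1 := by
        intro h; rw [h] at hup; exact hu0 (by rw [hup]; ring)
      have h11 : p = -1 := by
        rcases mul_self_eq_one_iff.mp h9 with h | h
        · exact absurd h h10
        · exact h
      apply hne1
      rw [hw, h11]; norm_num
    have h7 : 0 < p.im ^ 2 := by positivity
    have h8 := norm_nonneg (1 - u * p)
    nlinarith
  have h3 := Y_le hn2 hcu hM 3
  rw [hY3] at h3
  have h4 := h3 hbig.le
  have h5 := hN₄ n hn4 hbig
  linarith

/-- `‖1 + u‖ ≠ 1`. -/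
lemma excU_bounded_of_ne {u : ℂ} (hp : ‖1 + u‖ ≠ 1) : ∃ N : ℕ, ∀ n ∈ excU u, n < N := by
  have hu0 : u ≠ 0 := by
    intro h; rw [h] at hp; simp at hp
  have hu : 0 < ‖u‖ := norm_pos_iff.mpr hu0
  have hγ : 0 < |‖1 + u‖ ^ 2 - 1| := by
    rw [abs_pos]
    intro h
    apply hp
    have h1 : ‖1 + u‖ ^ 2 = 1 := by linarith
    exact (pow_eq_one_iff_of_nonneg (norm_nonneg _) (by norm_num)).mp h1
  obtain ⟨N₁, hN₁⟩ := eventually_log_div (show 0 < |‖1 + u‖ ^ 2 - 1| / 40 by positivity)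
  obtain ⟨N₂, hN₂⟩ := exists_nat_gt (1 / ‖u‖)
  refine ⟨max (max N₁ N₂) (10 ^ 4), ?_⟩
  rintro n ⟨hn2, c, hcu, hM, hH⟩
  by_contra hcon
  push Not at hcon
  have hn1 : N₁ ≤ n := ((le_max_left _ _).trans (le_max_left _ _)).trans hcon
  have hn2' : N₂ ≤ n := ((le_max_right _ _).trans (le_max_left _ _)).trans hcon
  have hn4 : 10 ^ 4 ≤ n := (le_max_right _ _).trans hcon
  have hn0 : (0 : ℝ) < n := by
    have : 0 < n := by omega
    exact_mod_cast this
  have h1 := hN₁ n hn1
  have h2 := second_small hn4 hcu (by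
    have : (N₂ : ℝ) ≤ n := by exact_mod_cast hn2'
    rw [div_le_iff₀ hn0]
    rw [div_lt_iff₀ hu] at hN₂
    nlinarith) hM (fun h => hH (subset_closure h))
  linarith

/-- the exceptional degrees of a value of `c ^ (n - 1)` form a sparse set. -/
lemma excU_two (u : ℂ) : Sparse 2 (excU u) := by
  by_cases hp : ‖1 + u‖ = 1
  · by_cases hu0 : u = 0
    · -- `c = 0`
      apply Sparse.mono (sparse_of_bounded (A := excU u) ⟨0, ?_⟩) le_rfl (by norm_num)
      rintro n ⟨hn2, c, hcu, hM, hH⟩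
      exfalso
      rw [hu0] at hcu
      have hc : c = 0 := pow_eq_zero_iff (by omega) |>.mp hcu
      apply hH
      apply subset_closure
      rw [hc]
      exact Pool.Agent.LeadMultibrot.hasAttr_zero hn2
    · by_cases hroot : ∀ q : ℕ, 0 < q → (1 + u) ^ q ≠ 1
      · exact excU_sparse hu0 hp hroot
      · push Not at hroot
        obtain ⟨q, hq, hq1⟩ := hroot
        exact (sparse_of_bounded (excU_bounded hu0 hp hq hq1)).mono le_rfl (by norm_num)
  · exact (sparse_of_bounded (excU_bounded_of_ne hp)).mono le_rfl (by norm_num)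

/-- The exceptional degrees of a geometric sequence of parameters form a sparse set. -/
lemma exceptional_sparse (a b : ℂ) : Sparse 4 (exceptional a b) := by
  by_cases ha : a = 0
  · -- `c = 0`
    apply (sparse_of_bounded (A := exceptional a b) ⟨0, ?_⟩).mono le_rfl (by norm_num)
    rintro n ⟨hn2, c, hcu, hM, hH⟩
    exfalso
    rw [ha, zero_mul] at hcu
    have hc : c = 0 := pow_eq_zero_iff (by omega) |>.mp hcu
    apply hH
    apply subset_closure
    rw [hc]
    exact Pool.Agent.LeadMultibrot.hasAttr_zero hn2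
  have ha0 : 0 < ‖a‖ := norm_pos_iff.mpr ha
  rcases lt_trichotomy ‖b‖ 1 with hb | hb | hb
  · -- `‖b‖ < 1`
    apply (sparse_of_bounded (A := exceptional a b) ?_).mono le_rfl (by norm_num)
    have h1 : Tendsto (fun n : ℕ => (n : ℝ) * ‖b‖ ^ n) atTop (nhds 0) :=
      tendsto_self_mul_const_pow_of_lt_one (norm_nonneg _) hb
    obtain ⟨N, hN⟩ := eventually_atTop.mp
      (h1.eventually_lt_const (show (0 : ℝ) < 1 / (8 * ‖a‖) by positivity))
    refine ⟨N + 2, ?_⟩
    rintro n ⟨hn2, c, hcu, hM, hH⟩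
    by_contra hcon
    push Not at hcon
    have h2 := hN n (by omega)
    have hn0 : (0 : ℝ) < n := by
      have : 0 < n := by omega
      exact_mod_cast this
    obtain ⟨z, hz, hd⟩ := main_small hn2 (c := c) (by
      rw [← norm_pow, hcu, norm_mul, norm_pow, le_div_iff₀ (by positivity)]
      rw [lt_div_iff₀ (by positivity)] at h2
      nlinarith)
    exact hH (subset_closure ⟨z, 1, one_pos, by simpa using hz, by simpa using hd⟩)
  · -- `‖b‖ = 1`
    obtain ⟨v₁, v₂, hfac⟩ := second_factor ha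
    by_cases hroot : ∀ q : ℕ, 0 < q → b ^ q ≠ 1
    · -- `b` is not a root of unity
      apply (sparse_two_class hb hroot v₁ v₂ (A := exceptional a b) ?_).mono le_rfl (by norm_num)
      intro ε hε
      obtain ⟨N₁, hN₁⟩ := eventually_log_div (show 0 < ε * ‖a‖ / 40 by positivity)
      obtain ⟨N₂, hN₂⟩ := exists_nat_gt (1 / ‖a‖)
      refine ⟨max (max N₁ N₂) (10 ^ 4), ?_⟩
      rintro n ⟨hn2, c, hcu, hM, hH⟩ hn
      have hn1 : N₁ ≤ n := ((le_max_left _ _).trans (le_max_left _ _)).trans hn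
      have hn2' : N₂ ≤ n := ((le_max_right _ _).trans (le_max_left _ _)).trans hn
      have hn4 : 10 ^ 4 ≤ n := (le_max_right _ _).trans hn
      have hn0 : (0 : ℝ) < n := by
        have : 0 < n := by omega
        exact_mod_cast this
      have hbn : ‖b ^ n‖ = 1 := by rw [norm_pow, hb, one_pow]
      have h1 := hN₁ n hn1
      have h2 := second_small hn4 hcu (by
        have : (N₂ : ℝ) ≤ n := by exact_mod_cast hn2'
        rw [norm_mul, hbn, mul_one, div_le_iff₀ hn0]
        rw [div_lt_iff₀ ha0] at hN₂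
        nlinarith) hM (fun h => hH (subset_closure h))
      rw [hfac _ hbn] at h2
      have h3 : ‖b ^ n - v₁‖ * ‖b ^ n - v₂‖ * ‖a‖ < ε * ‖a‖ := by
        refine lt_of_le_of_lt h2 ?_
        linarith
      exact lt_of_mul_lt_mul_right h3 ha0.le
    · -- `b` is a root of unity
      push Not at hroot
      obtain ⟨q, hq, hbq⟩ := hroot
      obtain ⟨γ, hγ, hgap⟩ := finite_gap q (fun r => |‖1 + a * b ^ r‖ ^ 2 - 1|)
        (fun r => abs_nonneg _)
      have hsub : exceptional a b ⊆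
          ({n | n ∈ exceptional a b ∧ ‖1 + a * b ^ n‖ ^ 2 - 1 ≠ 0} ∪ excU (a * v₁)) ∪
            excU (a * v₂) := by
        intro n hn
        by_cases h : ‖1 + a * b ^ n‖ ^ 2 - 1 = 0
        · have hbn : ‖b ^ n‖ = 1 := by rw [norm_pow, hb, one_pow]
          have h1 := hfac _ hbn
          rw [h, abs_zero] at h1
          rcases mul_eq_zero.mp h1.symm with h2 | h2
          · rcases mul_eq_zero.mp h2 with h3 | h3
            · left; right
              have h4 : b ^ n = v₁ := sub_eq_zero.mp (norm_eq_zero.mp h3)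
              obtain ⟨hn2, c, hcu, hM, hH⟩ := hn
              exact ⟨hn2, c, by rw [hcu, h4], hM, hH⟩
            · right
              have h4 : b ^ n = v₂ := sub_eq_zero.mp (norm_eq_zero.mp h3)
              obtain ⟨hn2, c, hcu, hM, hH⟩ := hn
              exact ⟨hn2, c, by rw [hcu, h4], hM, hH⟩
          · exact absurd (norm_eq_zero.mp h2) ha
        · left; left; exact ⟨hn, h⟩
      have hF : Sparse 0 {n | n ∈ exceptional a b ∧ ‖1 + a * b ^ n‖ ^ 2 - 1 ≠ 0} := by
        apply sparse_of_bounded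
        obtain ⟨N₁, hN₁⟩ := eventually_log_div (show 0 < γ / 40 by positivity)
        obtain ⟨N₂, hN₂⟩ := exists_nat_gt (1 / ‖a‖)
        refine ⟨max (max N₁ N₂) (10 ^ 4), ?_⟩
        rintro n ⟨⟨hn2, c, hcu, hM, hH⟩, hne⟩
        by_contra hn
        push Not at hn
        have hn1 : N₁ ≤ n := ((le_max_left _ _).trans (le_max_left _ _)).trans hn
        have hn2' : N₂ ≤ n := ((le_max_right _ _).trans (le_max_left _ _)).trans hn
        have hn4 : 10 ^ 4 ≤ n := (le_max_right _ _).trans hn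
        have hn0 : (0 : ℝ) < n := by
          have : 0 < n := by omega
          exact_mod_cast this
        have hbn : ‖b ^ n‖ = 1 := by rw [norm_pow, hb, one_pow]
        have h1 := hN₁ n hn1
        have h2 := second_small hn4 hcu (by
          have : (N₂ : ℝ) ≤ n := by exact_mod_cast hn2'
          rw [norm_mul, hbn, mul_one, div_le_iff₀ hn0]
          rw [div_lt_iff₀ ha0] at hN₂
          nlinarith) hM (fun h => hH (subset_closure h))
        have hmod : b ^ n = b ^ (n % q) := by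
          conv_lhs => rw [← Nat.div_add_mod n q, pow_add, pow_mul, hbq, one_pow, one_mul]
        have h3 := hgap (n % q) (Nat.mod_lt _ hq) (by
          rw [← hmod]; exact abs_ne_zero.mpr hne)
        rw [← hmod] at h3
        linarith
      have h4 := ((hF.union (excU_two (a * v₁))).union (excU_two (a * v₂)))
      exact h4.mono hsub (by norm_num)
  · -- `1 < ‖b‖`
    apply (sparse_of_bounded (A := exceptional a b) ?_).mono le_rfl (by norm_num)
    obtain ⟨k, hk⟩ := pow_unbounded_of_one_lt (2 / ‖a‖) hb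
    refine ⟨k, ?_⟩
    rintro n ⟨hn2, c, hcu, hM, hH⟩
    by_contra hcon
    push Not at hcon
    have h1 := Pool.Agent.LeadMultibrot.norm_pow_le_two hn2 hM
    rw [← norm_pow, hcu, norm_mul, norm_pow] at h1
    have h2 : ‖b‖ ^ k ≤ ‖b‖ ^ n := pow_le_pow_right₀ hb.le hcon
    rw [div_lt_iff₀ ha0] at hk
    nlinarith

/-- The exceptional degrees of `c` are bounded, unless `‖c‖ = 1` and `c` is not a root of unity. -/
lemma exceptionalAt_finite {c : ℂ} (hc : ‖c‖ ≠ 1 ∨ ∃ q : ℕ, 0 < q ∧ c ^ q = 1) :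
    (exceptionalAt c).Finite := by
  suffices h : ∃ N : ℕ, ∀ n ∈ exceptionalAt c, n < N by
    obtain ⟨N, hN⟩ := h
    exact (Set.finite_Iio N).subset hN
  rcases hc with hc | ⟨q, hq, hcq⟩
  · rcases lt_or_gt_of_ne hc with h | h
    · have h1 : Tendsto (fun n : ℕ => (n : ℝ) * ‖c‖ ^ n) atTop (nhds 0) :=
        tendsto_self_mul_const_pow_of_lt_one (norm_nonneg _) h
      obtain ⟨N, hN⟩ := eventually_atTop.mp
        (h1.eventually_lt_const (show (0 : ℝ) < 1 / 16 by norm_num))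
      refine ⟨N + 2, ?_⟩
      rintro n ⟨hn2, hM, hH⟩
      by_contra hcon
      push Not at hcon
      have h3 := hN (n - 1) (by omega)
      have hn2r : (2 : ℝ) ≤ n := by exact_mod_cast hn2
      rw [Nat.cast_sub (by omega), Nat.cast_one] at h3
      have h4 : ‖c‖ ^ (n - 1) ≤ 1 / (8 * (n : ℝ)) := by
        rw [le_div_iff₀ (by positivity)]
        have h5 : 0 ≤ ‖c‖ ^ (n - 1) := by positivity
        nlinarith
      obtain ⟨z, hz, hd⟩ := main_small hn2 h4
      exact hH (subset_closure ⟨z, 1, one_pos, by simpa using hz, by simpa using hd⟩)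
    · obtain ⟨k, hk⟩ := pow_unbounded_of_one_lt 2 h
      refine ⟨k + 2, ?_⟩
      rintro n ⟨hn2, hM, hH⟩
      by_contra hcon
      push Not at hcon
      have h1 := Pool.Agent.LeadMultibrot.norm_pow_le_two hn2 hM
      have h2 : ‖c‖ ^ k ≤ ‖c‖ ^ (n - 1) := pow_le_pow_right₀ h.le (by omega)
      linarith
  · have hq0 : (0 : ℝ) < q := by exact_mod_cast hq
    obtain ⟨N, hN⟩ := eventually_log_div (show (0 : ℝ) < 1 / (32 * (q : ℝ)) by positivity)
    refine ⟨max N (10 ^ 4), ?_⟩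
    rintro n ⟨hn2, hM, hH⟩
    by_contra hcon
    push Not at hcon
    have hnN : N ≤ n := (le_max_left _ _).trans hcon
    have hn4 : 10 ^ 4 ≤ n := (le_max_right _ _).trans hcon
    have h1 := hN n hnN
    have hn0 : (0 : ℝ) < n := by
      have : 0 < n := by omega
      exact_mod_cast this
    rw [div_lt_div_iff₀ hn0 (by positivity)] at h1
    exact hH (root_of_unity_closure hq hn4 (by linarith) hcq hM)

/-- The exceptional degrees of a value `u` of `c ^ (n - 1)` are bounded, unless `‖1 + u‖ = 1` and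
`1 + u` is not a root of unity. -/
lemma exceptional_one_finite {u : ℂ} (hu : ‖1 + u‖ ≠ 1 ∨ ∃ q : ℕ, 0 < q ∧ (1 + u) ^ q = 1) :
    (exceptional u 1).Finite := by
  have e : exceptional u 1 ⊆ excU u := by
    rintro n ⟨hn2, c, hcu, hM, hH⟩
    exact ⟨hn2, c, by rw [hcu, one_pow, mul_one], hM, hH⟩
  suffices h : ∃ N : ℕ, ∀ n ∈ excU u, n < N by
    obtain ⟨N, hN⟩ := h
    exact (Set.finite_Iio N).subset (fun n hn => hN n (e hn))
  rcases hu with hu | ⟨q, hq, huq⟩
  · exact excU_bounded_of_ne hu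
  · have hp : ‖1 + u‖ = 1 := by
      have : ‖1 + u‖ ^ q = 1 := by rw [← norm_pow, huq, norm_one]
      exact (pow_eq_one_iff_of_nonneg (norm_nonneg _) (by omega)).mp this
    by_cases hu0 : u = 0
    · refine ⟨0, ?_⟩
      rintro n ⟨hn2, c, hcu, hM, hH⟩
      exfalso
      rw [hu0] at hcu
      have hc : c = 0 := pow_eq_zero_iff (by omega) |>.mp hcu
      apply hH
      apply subset_closure
      rw [hc]
      exact Pool.Agent.LeadMultibrot.hasAttr_zero hn2
    · exact excU_bounded hu0 hp hq huq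

end Pool.Agent.helper69.MB
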