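import Mathlib
import Pool.Agent.helper98.ILF.Defs
import Pool.Agent.helper69.Multibrot.DegreeDefs

/-!
# Degrees `n` for which `z ^ n + c` has an invariant line field or a Julia set of positive area

`juliaSet` and `HasInvariantLineField` are defined in `Pool/Agent/helper98/ILF/Defs.lean`.
-/

set_option autoImplicit false

open MeasureTheory

namespace Pool.Agent.helper69.MB

open Pool.Agent.helper98.ILF

/-- `f` has an invariant line field on its Julia set, or its Julia set has positive area. -/
def LineFieldOrArea (f : ℂ → ℂ) : Prop := HasInvariantLineField f ∨ 0 < volume (juliaSet f)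

/-- The degrees `n ≥ 2` such that, for some solution `c` of `c ^ (n - 1) = a * b ^ n`, `z ^ n + c`
has an invariant line field or a Julia set of positive area. -/
def fatDegrees (a b : ℂ) : Set ℕ :=
  {n | 2 ≤ n ∧ ∃ c : ℂ, c ^ (n - 1) = a * b ^ n ∧ LineFieldOrArea (fun z : ℂ => z ^ n + c)}

/-- The degrees `n ≥ 2` such that, for some solution `c` of `c ^ (n - 1) = a * b ^ n`,
`f = z ^ n + c` has an invariant line field or a Julia set of positive area, and the second iterate
`f (f 0)` of the critical point is not a fixed point of `f`. -/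
def fatDegrees' (a b : ℂ) : Set ℕ :=
  {n | 2 ≤ n ∧ ∃ c : ℂ, c ^ (n - 1) = a * b ^ n ∧ LineFieldOrArea (fun z : ℂ => z ^ n + c) ∧
    (fun z : ℂ => z ^ n + c)^[3] 0 ≠ (fun z : ℂ => z ^ n + c)^[2] 0}

/-- The degrees `n ≥ 2` such that `z ^ n + c` has an invariant line field or a Julia set of positive
area. -/
def fatDegreesAt (c : ℂ) : Set ℕ :=
  {n | 2 ≤ n ∧ LineFieldOrArea (fun z : ℂ => z ^ n + c)}

/-- The degrees `n ≥ 2` such that `f = z ^ n + c` has an invariant line field or a Julia set of
positive area, and the second iterate `f (f 0)` of the critical point is not a fixed point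
of `f`. -/
def fatDegreesAt' (c : ℂ) : Set ℕ :=
  {n | 2 ≤ n ∧ LineFieldOrArea (fun z : ℂ => z ^ n + c) ∧
    (fun z : ℂ => z ^ n + c)^[3] 0 ≠ (fun z : ℂ => z ^ n + c)^[2] 0}

end Pool.Agent.helper69.MB
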