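import Pool.Agent.helper98.ILF.Poly
import Pool.Agent.helper69.Multibrot.GeoSeq
import Pool.Agent.helper69.Multibrot.LineFieldDefs

/-!
# Julia sets of positive area of `z ^ n + c`: sparse sets of degrees
-/

set_option autoImplicit false

open Filter Topology

namespace Pool.Agent.helper69.MB

open Pool.Agent.helper16.Multibrot

/-- the degrees `n` for which some `c` with `c ^ (n - 1) = a * b ^ n` is in `M_n` and not in `H_n`,
and the critical orbit does not end at a fixed point after two steps. -/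
def fatAB (a b : ℂ) : Set ℕ :=
  {n | 2 ≤ n ∧ ∃ c : ℂ, c ^ (n - 1) = a * b ^ n ∧ c ∈ multibrot n ∧ c ∉ hyperbolic n ∧
    (1 + c ^ (n - 1)) ^ n ≠ 1}

/-- the exceptional degrees of a given value `u` of `c ^ (n - 1)`. -/
def fatU (u : ℂ) : Set ℕ :=
  {n | 2 ≤ n ∧ ∃ c : ℂ, c ^ (n - 1) = u ∧ c ∈ multibrot n ∧ c ∉ hyperbolic n ∧
    (1 + c ^ (n - 1)) ^ n ≠ 1}

/-- `‖1 + u‖ = 1`, `1 + u` is not a root of unity. -/
lemma fatU_sparse {u : ℂ} (hu0 : u ≠ 0) (hp : ‖1 + u‖ = 1)
    (hroot : ∀ q : ℕ, 0 < q → (1 + u) ^ q ≠ 1) : Sparse 2 (fatU u) := by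
  have hu : 0 < ‖u‖ := norm_pos_iff.mpr hu0
  obtain ⟨N, hN⟩ := third_small hu0 hp
  apply sparse_two_class hp hroot 1 (-1 / (1 + u))
  intro ε hε
  obtain ⟨N', hN'⟩ := eventually_log_div (show 0 < ε * ‖u‖ / 40 by positivity)
  refine ⟨max N N', ?_⟩
  rintro n ⟨hn2, c, hcu, hM, hH, hE⟩ hn
  have h1 := hN n ((le_max_left _ _).trans hn) c hcu hM hH
  have h2 := hN' n ((le_max_right _ _).trans hn)
  rw [third_factor hp (by rw [norm_pow, hp, one_pow])] at h1
  have h3 : ‖(1 + u) ^ n - 1‖ * ‖(1 + u) ^ n - -1 / (1 + u)‖ * ‖u‖ < ε * ‖u‖ := by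
    refine lt_of_le_of_lt h1 ?_
    linarith
  exact lt_of_mul_lt_mul_right h3 hu.le

/-- `‖1 + u‖ = 1`, `1 + u` is a root of unity. -/
lemma fatU_bounded {u : ℂ} (hu0 : u ≠ 0) (hp : ‖1 + u‖ = 1) {q : ℕ} (hq : 0 < q)
    (hroot : (1 + u) ^ q = 1) : ∃ N : ℕ, ∀ n ∈ fatU u, n < N := by
  have hu : 0 < ‖u‖ := norm_pos_iff.mpr hu0
  set p : ℂ := 1 + u with hpdef
  have hup : u = p - 1 := by rw [hpdef]; ring
  have hp0 : p ≠ 0 := by intro h; rw [h, norm_zero] at hp; exact zero_ne_one hp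
  obtain ⟨N₁, hN₁⟩ := third_small hu0 hp
  obtain ⟨γ, hγ, hgap⟩ := finite_gap q (fun r => ‖p ^ r - 1‖ * ‖p ^ r - -1 / p‖) (by
    intro r; positivity)
  obtain ⟨N₃, hN₃⟩ := eventually_log_div (show 0 < γ * ‖u‖ / 40 by positivity)
  -- growth of the fourth point
  obtain ⟨N₄, hN₄⟩ : ∃ N₄ : ℕ, ∀ n : ℕ, N₄ ≤ n → 1 < ‖1 - u * p‖ →
      2 < ‖u‖ * ‖1 - u * p‖ ^ (n - 1) := by
    by_cases h : 1 < ‖1 - u * p‖
    · obtain ⟨k, hk⟩ := pow_unbounded_of_one_lt (2 / ‖u‖) h
      refine ⟨k + 1, fun n hn _ => ?_⟩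
      have h1 : ‖1 - u * p‖ ^ k ≤ ‖1 - u * p‖ ^ (n - 1) := pow_le_pow_right₀ h.le (by omega)
      rw [div_lt_iff₀ hu] at hk
      nlinarith
    · exact ⟨0, fun n _ h' => absurd h' h⟩
  refine ⟨max N₁ (max N₃ N₄), ?_⟩
  rintro n ⟨hn2, c, hcu, hM, hH, hE⟩
  by_contra hcon
  push Not at hcon
  have hn1 : N₁ ≤ n := (le_max_left _ _).trans hcon
  have hn3 : N₃ ≤ n := ((le_max_left _ _).trans (le_max_right _ _)).trans hcon
  have hn4 : N₄ ≤ n := ((le_max_right _ _).trans (le_max_right _ _)).trans hcon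
  have h1 := hN₁ n hn1 c hcu hM hH
  have h2 := hN₃ n hn3
  have hpn : ‖p ^ n‖ = 1 := by rw [norm_pow, hp, one_pow]
  rw [third_factor hp hpn] at h1
  have hmod : p ^ n = p ^ (n % q) := by
    conv_lhs => rw [← Nat.div_add_mod n q, pow_add, pow_mul, hroot, one_pow, one_mul]
  have hzero : ‖p ^ n - 1‖ * ‖p ^ n - -1 / p‖ = 0 := by
    by_contra hne
    rw [hmod] at hne
    have h3 := hgap (n % q) (Nat.mod_lt _ hq) hne
    rw [← hmod] at h3
    have h4 : γ * ‖u‖ ≤ ‖p ^ n - 1‖ * ‖p ^ n - -1 / p‖ * ‖u‖ :=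
      mul_le_mul_of_nonneg_right h3 hu.le
    rw [← hpdef] at h1
    linarith
  have hne1 : p ^ n ≠ 1 := fun h => hE (by rw [hcu]; exact h)
  have hw : p ^ n = -1 / p := by
    rcases mul_eq_zero.mp hzero with h | h
    · exact absurd (sub_eq_zero.mp (norm_eq_zero.mp h)) hne1
    · exact sub_eq_zero.mp (norm_eq_zero.mp h)
  -- the orbit
  have hY2 : Y n 2 u = 1 / p := by
    rw [Y_two, ← hpdef, hw, hup]; field_simp; ring
  have hY3 : Y n 3 u = 1 - u * p := by
    rw [Y_succ, hY2, div_pow, one_pow, hw]; field_simp; ring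
  -- the fourth point is outside of the unit circle
  have hbig : 1 < ‖1 - u * p‖ := by
    set p' : ℂ := (starRingEnd ℂ) p with hp'
    have hpp : p * p' = 1 := by
      have := Complex.mul_conj' p
      rw [hp] at this
      simpa [hp'] using this
    have h3 : (1 - u * p) * p' = 1 - (p - p') := by
      linear_combination (-u) * hpp - hup
    have h4 : p - p' = ((2 * p.im : ℝ) : ℂ) * Complex.I := by
      rw [hp', Complex.sub_conj]
    have h5 : ‖1 - u * p‖ ^ 2 = 1 + 4 * p.im ^ 2 := by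
      have h6 : ‖1 - u * p‖ = ‖(1 - u * p) * p'‖ := by
        rw [norm_mul, hp', Complex.norm_conj, hp, mul_one]
      rw [h6, h3, h4, ← Complex.normSq_eq_norm_sq, Complex.normSq_apply]
      simp
      ring
    have h6 : p.im ≠ 0 := by
      intro him
      have h7 : p.re ^ 2 = 1 := by
        have h8 : ‖p‖ ^ 2 = p.re ^ 2 + p.im ^ 2 := by
          rw [← Complex.normSq_eq_norm_sq, Complex.normSq_apply]; ring
        rw [hp, him] at h8
        linarith
      have h8 : p = ((p.re : ℝ) : ℂ) := by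
        apply Complex.ext
        · simp
        · simp [him]
      have h9 : p * p = 1 := by
        rw [h8]; exact_mod_cast (by nlinarith : p.re * p.re = 1)
      -- `p = -1`, and `p ^ n = 1`
      have h10 : p ≠ 1 := by
        intro h; rw [h] at hup; exact hu0 (by rw [hup]; ring)
      have h11 : p = -1 := by
        rcases mul_self_eq_one_iff.mp h9 with h | h
        · exact absurd h h10
        · exact h
      apply hne1
      rw [hw, h11]; norm_num
    have h7 : 0 < p.im ^ 2 := by positivity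
    have h8 := norm_nonneg (1 - u * p)
    nlinarith
  have h3 := Y_le hn2 hcu hM 3
  rw [hY3] at h3
  have h4 := h3 hbig.le
  have h5 := hN₄ n hn4 hbig
  linarith

/-- `‖1 + u‖ ≠ 1`. -/
lemma fatU_bounded_of_ne {u : ℂ} (hp : ‖1 + u‖ ≠ 1) : ∃ N : ℕ, ∀ n ∈ fatU u, n < N := by
  have hu0 : u ≠ 0 := by
    intro h; rw [h] at hp; simp at hp
  have hu : 0 < ‖u‖ := norm_pos_iff.mpr hu0
  have hγ : 0 < |‖1 + u‖ ^ 2 - 1| := by
    rw [abs_pos]
    intro h
    apply hp
    have h1 : ‖1 + u‖ ^ 2 = 1 := by linarith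
    exact (pow_eq_one_iff_of_nonneg (norm_nonneg _) (by norm_num)).mp h1
  obtain ⟨N₁, hN₁⟩ := eventually_log_div (show 0 < |‖1 + u‖ ^ 2 - 1| / 40 by positivity)
  obtain ⟨N₂, hN₂⟩ := exists_nat_gt (1 / ‖u‖)
  refine ⟨max (max N₁ N₂) (10 ^ 4), ?_⟩
  rintro n ⟨hn2, c, hcu, hM, hH, hE⟩
  by_contra hcon
  push Not at hcon
  have hn1 : N₁ ≤ n := ((le_max_left _ _).trans (le_max_left _ _)).trans hcon
  have hn2' : N₂ ≤ n := ((le_max_right _ _).trans (le_max_left _ _)).trans hcon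
  have hn4 : 10 ^ 4 ≤ n := (le_max_right _ _).trans hcon
  have hn0 : (0 : ℝ) < n := by
    have : 0 < n := by omega
    exact_mod_cast this
  have h1 := hN₁ n hn1
  have h2 := second_small hn4 hcu (by
    have : (N₂ : ℝ) ≤ n := by exact_mod_cast hn2'
    rw [div_le_iff₀ hn0]
    rw [div_lt_iff₀ hu] at hN₂
    nlinarith) hM hH
  linarith

/-- the exceptional degrees of a value of `c ^ (n - 1)` form a sparse set. -/
lemma fatU_two (u : ℂ) : Sparse 2 (fatU u) := by
  by_cases hp : ‖1 + u‖ = 1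
  · by_cases hu0 : u = 0
    · -- `c = 0`
      apply Sparse.mono (sparse_of_bounded (A := fatU u) ⟨0, ?_⟩) le_rfl (by norm_num)
      rintro n ⟨hn2, c, hcu, hM, hH, hE⟩
      exfalso
      rw [hu0] at hcu
      have hc : c = 0 := pow_eq_zero_iff (by omega) |>.mp hcu
      apply hH
      rw [hc]
      exact Pool.Agent.LeadMultibrot.hasAttr_zero hn2
    · by_cases hroot : ∀ q : ℕ, 0 < q → (1 + u) ^ q ≠ 1
      · exact fatU_sparse hu0 hp hroot
      · push Not at hroot
        obtain ⟨q, hq, hq1⟩ := hroot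
        exact (sparse_of_bounded (fatU_bounded hu0 hp hq hq1)).mono le_rfl (by norm_num)
  · exact (sparse_of_bounded (fatU_bounded_of_ne hp)).mono le_rfl (by norm_num)

/-- The exceptional degrees of a geometric sequence of parameters form a sparse set. -/
lemma fatAB_sparse (a b : ℂ) : Sparse 4 (fatAB a b) := by
  by_cases ha : a = 0
  · -- `c = 0`
    apply (sparse_of_bounded (A := fatAB a b) ⟨0, ?_⟩).mono le_rfl (by norm_num)
    rintro n ⟨hn2, c, hcu, hM, hH, hE⟩
    exfalso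
    rw [ha, zero_mul] at hcu
    have hc : c = 0 := pow_eq_zero_iff (by omega) |>.mp hcu
    apply hH
    rw [hc]
    exact Pool.Agent.LeadMultibrot.hasAttr_zero hn2
  have ha0 : 0 < ‖a‖ := norm_pos_iff.mpr ha
  rcases lt_trichotomy ‖b‖ 1 with hb | hb | hb
  · -- `‖b‖ < 1`
    apply (sparse_of_bounded (A := fatAB a b) ?_).mono le_rfl (by norm_num)
    have h1 : Tendsto (fun n : ℕ => (n : ℝ) * ‖b‖ ^ n) atTop (nhds 0) :=
      tendsto_self_mul_const_pow_of_lt_one (norm_nonneg _) hb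
    obtain ⟨N, hN⟩ := eventually_atTop.mp
      (h1.eventually_lt_const (show (0 : ℝ) < 1 / (8 * ‖a‖) by positivity))
    refine ⟨N + 2, ?_⟩
    rintro n ⟨hn2, c, hcu, hM, hH, hE⟩
    by_contra hcon
    push Not at hcon
    have h2 := hN n (by omega)
    have hn0 : (0 : ℝ) < n := by
      have : 0 < n := by omega
      exact_mod_cast this
    obtain ⟨z, hz, hd⟩ := main_small hn2 (c := c) (by
      rw [← norm_pow, hcu, norm_mul, norm_pow, le_div_iff₀ (by positivity)]
      rw [lt_div_iff₀ (by positivity)] at h2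
      nlinarith)
    exact hH ⟨z, 1, one_pos, by simpa using hz, by simpa using hd⟩
  · -- `‖b‖ = 1`
    obtain ⟨v₁, v₂, hfac⟩ := second_factor ha
    by_cases hroot : ∀ q : ℕ, 0 < q → b ^ q ≠ 1
    · -- `b` is not a root of unity
      apply (sparse_two_class hb hroot v₁ v₂ (A := fatAB a b) ?_).mono le_rfl (by norm_num)
      intro ε hε
      obtain ⟨N₁, hN₁⟩ := eventually_log_div (show 0 < ε * ‖a‖ / 40 by positivity)
      obtain ⟨N₂, hN₂⟩ := exists_nat_gt (1 / ‖a‖)
      refine ⟨max (max N₁ N₂) (10 ^ 4), ?_⟩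
      rintro n ⟨hn2, c, hcu, hM, hH, hE⟩ hn
      have hn1 : N₁ ≤ n := ((le_max_left _ _).trans (le_max_left _ _)).trans hn
      have hn2' : N₂ ≤ n := ((le_max_right _ _).trans (le_max_left _ _)).trans hn
      have hn4 : 10 ^ 4 ≤ n := (le_max_right _ _).trans hn
      have hn0 : (0 : ℝ) < n := by
        have : 0 < n := by omega
        exact_mod_cast this
      have hbn : ‖b ^ n‖ = 1 := by rw [norm_pow, hb, one_pow]
      have h1 := hN₁ n hn1
      have h2 := second_small hn4 hcu (by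
        have : (N₂ : ℝ) ≤ n := by exact_mod_cast hn2'
        rw [norm_mul, hbn, mul_one, div_le_iff₀ hn0]
        rw [div_lt_iff₀ ha0] at hN₂
        nlinarith) hM hH
      rw [hfac _ hbn] at h2
      have h3 : ‖b ^ n - v₁‖ * ‖b ^ n - v₂‖ * ‖a‖ < ε * ‖a‖ := by
        refine lt_of_le_of_lt h2 ?_
        linarith
      exact lt_of_mul_lt_mul_right h3 ha0.le
    · -- `b` is a root of unity
      push Not at hroot
      obtain ⟨q, hq, hbq⟩ := hroot
      obtain ⟨γ, hγ, hgap⟩ := finite_gap q (fun r => |‖1 + a * b ^ r‖ ^ 2 - 1|)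
        (fun r => abs_nonneg _)
      have hsub : fatAB a b ⊆
          ({n | n ∈ fatAB a b ∧ ‖1 + a * b ^ n‖ ^ 2 - 1 ≠ 0} ∪ fatU (a * v₁)) ∪
            fatU (a * v₂) := by
        intro n hn
        by_cases h : ‖1 + a * b ^ n‖ ^ 2 - 1 = 0
        · have hbn : ‖b ^ n‖ = 1 := by rw [norm_pow, hb, one_pow]
          have h1 := hfac _ hbn
          rw [h, abs_zero] at h1
          rcases mul_eq_zero.mp h1.symm with h2 | h2
          · rcases mul_eq_zero.mp h2 with h3 | h3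
            · left; right
              have h4 : b ^ n = v₁ := sub_eq_zero.mp (norm_eq_zero.mp h3)
              obtain ⟨hn2, c, hcu, hM, hH, hE⟩ := hn
              exact ⟨hn2, c, by rw [hcu, h4], hM, hH, hE⟩
            · right
              have h4 : b ^ n = v₂ := sub_eq_zero.mp (norm_eq_zero.mp h3)
              obtain ⟨hn2, c, hcu, hM, hH, hE⟩ := hn
              exact ⟨hn2, c, by rw [hcu, h4], hM, hH, hE⟩
          · exact absurd (norm_eq_zero.mp h2) ha
        · left; left; exact ⟨hn, h⟩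
      have hF : Sparse 0 {n | n ∈ fatAB a b ∧ ‖1 + a * b ^ n‖ ^ 2 - 1 ≠ 0} := by
        apply sparse_of_bounded
        obtain ⟨N₁, hN₁⟩ := eventually_log_div (show 0 < γ / 40 by positivity)
        obtain ⟨N₂, hN₂⟩ := exists_nat_gt (1 / ‖a‖)
        refine ⟨max (max N₁ N₂) (10 ^ 4), ?_⟩
        rintro n ⟨⟨hn2, c, hcu, hM, hH, hE⟩, hne⟩
        by_contra hn
        push Not at hn
        have hn1 : N₁ ≤ n := ((le_max_left _ _).trans (le_max_left _ _)).trans hn
        have hn2' : N₂ ≤ n := ((le_max_right _ _).trans (le_max_left _ _)).trans hn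
        have hn4 : 10 ^ 4 ≤ n := (le_max_right _ _).trans hn
        have hn0 : (0 : ℝ) < n := by
          have : 0 < n := by omega
          exact_mod_cast this
        have hbn : ‖b ^ n‖ = 1 := by rw [norm_pow, hb, one_pow]
        have h1 := hN₁ n hn1
        have h2 := second_small hn4 hcu (by
          have : (N₂ : ℝ) ≤ n := by exact_mod_cast hn2'
          rw [norm_mul, hbn, mul_one, div_le_iff₀ hn0]
          rw [div_lt_iff₀ ha0] at hN₂
          nlinarith) hM hH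
        have hmod : b ^ n = b ^ (n % q) := by
          conv_lhs => rw [← Nat.div_add_mod n q, pow_add, pow_mul, hbq, one_pow, one_mul]
        have h3 := hgap (n % q) (Nat.mod_lt _ hq) (by
          rw [← hmod]; exact abs_ne_zero.mpr hne)
        rw [← hmod] at h3
        linarith
      have h4 := ((hF.union (fatU_two (a * v₁))).union (fatU_two (a * v₂)))
      exact h4.mono hsub (by norm_num)
  · -- `1 < ‖b‖`
    apply (sparse_of_bounded (A := fatAB a b) ?_).mono le_rfl (by norm_num)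
    obtain ⟨k, hk⟩ := pow_unbounded_of_one_lt (2 / ‖a‖) hb
    refine ⟨k, ?_⟩
    rintro n ⟨hn2, c, hcu, hM, hH, hE⟩
    by_contra hcon
    push Not at hcon
    have h1 := Pool.Agent.LeadMultibrot.norm_pow_le_two hn2 hM
    rw [← norm_pow, hcu, norm_mul, norm_pow] at h1
    have h2 : ‖b‖ ^ k ≤ ‖b‖ ^ n := pow_le_pow_right₀ hb.le hcon
    rw [div_lt_iff₀ ha0] at hk
    nlinarith


/-- for a parameter with an invariant line field or Julia set of positive area. -/
lemma fat_mem {n : ℕ} (hn : 2 ≤ n) {c : ℂ} (h' : LineFieldOrArea (fun z : ℂ => z ^ n + c)) :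
    c ∈ multibrot n ∧ c ∉ hyperbolic n := by
  have h : 0 < MeasureTheory.volume
      (Pool.Agent.helper98.ILF.juliaSet (fun z : ℂ => z ^ n + c)) := by
    rcases h' with h | h
    · rw [pos_iff_ne_zero]
      exact fun h0 => Pool.Agent.helper98.ILF.no_line_field h0 h
    · exact h
  have hmem : c ∈ Pool.Agent.helper98.ILF.filled n c ∧
      ¬ Pool.Agent.helper98.ILF.HasAttractingCycle (fun z : ℂ => z ^ n + c) := by
    by_contra hcon
    rw [not_and_or, not_not] at hcon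
    rw [Pool.Agent.helper98.ILF.volume_juliaSet_pow hn hcon] at h
    exact lt_irrefl _ h
  refine ⟨?_, hmem.2⟩
  intro ht
  obtain ⟨k, hk⟩ := (ht.eventually_gt_atTop (2 + ‖c‖)).exists_forall_of_atTop
  have h1 := hmem.1 k
  have h2 := hk (k + 1) (by omega)
  rw [Function.iterate_succ_apply] at h2
  have h3 : (0 : ℂ) ^ n + c = c := by rw [zero_pow (by omega), zero_add]
  rw [h3] at h2
  linarith

/-- the second iterate of the critical point. -/
lemma second_fixed {n : ℕ} (hn : 2 ≤ n) {c : ℂ} (h : (1 + c ^ (n - 1)) ^ n = 1) :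
    (fun z : ℂ => z ^ n + c)^[3] 0 = (fun z : ℂ => z ^ n + c)^[2] 0 := by
  have h0 : (0 : ℂ) ^ n = 0 := zero_pow (by omega)
  have h1 : c ^ n = c ^ (n - 1) * c := by rw [← pow_succ]; congr 1; omega
  have h2 : (c ^ n + c) ^ n = c ^ n := by
    have : c ^ n + c = c * (1 + c ^ (n - 1)) := by rw [h1]; ring
    rw [this, mul_pow, h, mul_one]
  simp only [Function.iterate_succ, Function.iterate_zero, Function.comp_apply, id]
  rw [h0, zero_add, h2]

lemma fatDegrees'_subset (a b : ℂ) : fatDegrees' a b ⊆ fatAB a b := by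
  rintro n ⟨hn2, c, hcu, hv, hne⟩
  obtain ⟨h1, h2⟩ := fat_mem hn2 hv
  exact ⟨hn2, c, hcu, h1, h2, fun h => hne (second_fixed hn2 h)⟩

lemma fatDegreesAt_subset (c : ℂ) : fatDegreesAt c ⊆ fatDegrees c⁻¹ c := by
  rintro n ⟨hn2, hv⟩
  refine ⟨hn2, c, ?_, hv⟩
  by_cases hc : c = 0
  · rw [hc, zero_pow (by omega), zero_pow (by omega), mul_zero]
  · have : c ^ n = c * c ^ (n - 1) := by rw [← pow_succ']; congr 1; omega
    rw [this, inv_mul_cancel_left₀ hc]

/-- if `b` is not a root of unity no exception is needed. -/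
lemma fatDegrees_sparse (a : ℂ) {b : ℂ} (hroot : ∀ q : ℕ, 0 < q → b ^ q ≠ 1) :
    Sparse 2 (fatDegrees a b) := by
  by_cases ha : a = 0
  · -- `c = 0`
    apply (sparse_of_bounded (A := fatDegrees a b) ⟨0, ?_⟩).mono le_rfl (by norm_num)
    rintro n ⟨hn2, c, hcu, hv⟩
    obtain ⟨hM, hH⟩ := fat_mem hn2 hv
    exfalso
    rw [ha, zero_mul] at hcu
    have hc : c = 0 := pow_eq_zero_iff (by omega) |>.mp hcu
    apply hH
    rw [hc]
    exact Pool.Agent.LeadMultibrot.hasAttr_zero hn2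
  have ha0 : 0 < ‖a‖ := norm_pos_iff.mpr ha
  rcases lt_trichotomy ‖b‖ 1 with hb | hb | hb
  · -- `‖b‖ < 1`
    apply (sparse_of_bounded (A := fatDegrees a b) ?_).mono le_rfl (by norm_num)
    have h1 : Tendsto (fun n : ℕ => (n : ℝ) * ‖b‖ ^ n) atTop (nhds 0) :=
      tendsto_self_mul_const_pow_of_lt_one (norm_nonneg _) hb
    obtain ⟨N, hN⟩ := eventually_atTop.mp
      (h1.eventually_lt_const (show (0 : ℝ) < 1 / (8 * ‖a‖) by positivity))
    refine ⟨N + 2, ?_⟩
    rintro n ⟨hn2, c, hcu, hv⟩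
    obtain ⟨hM, hH⟩ := fat_mem hn2 hv
    by_contra hcon
    push Not at hcon
    have h2 := hN n (by omega)
    have hn0 : (0 : ℝ) < n := by
      have : 0 < n := by omega
      exact_mod_cast this
    obtain ⟨z, hz, hd⟩ := main_small hn2 (c := c) (by
      rw [← norm_pow, hcu, norm_mul, norm_pow, le_div_iff₀ (by positivity)]
      rw [lt_div_iff₀ (by positivity)] at h2
      nlinarith)
    exact hH ⟨z, 1, one_pos, by simpa using hz, by simpa using hd⟩
  · -- `‖b‖ = 1`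
    obtain ⟨v₁, v₂, hfac⟩ := second_factor ha
    apply sparse_two_class hb hroot v₁ v₂ (A := fatDegrees a b)
    intro ε hε
    obtain ⟨N₁, hN₁⟩ := eventually_log_div (show 0 < ε * ‖a‖ / 40 by positivity)
    obtain ⟨N₂, hN₂⟩ := exists_nat_gt (1 / ‖a‖)
    refine ⟨max (max N₁ N₂) (10 ^ 4), ?_⟩
    rintro n ⟨hn2, c, hcu, hv⟩ hn
    obtain ⟨hM, hH⟩ := fat_mem hn2 hv
    have hn1 : N₁ ≤ n := ((le_max_left _ _).trans (le_max_left _ _)).trans hn
    have hn2' : N₂ ≤ n := ((le_max_right _ _).trans (le_max_left _ _)).trans hn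
    have hn4 : 10 ^ 4 ≤ n := (le_max_right _ _).trans hn
    have hn0 : (0 : ℝ) < n := by
      have : 0 < n := by omega
      exact_mod_cast this
    have hbn : ‖b ^ n‖ = 1 := by rw [norm_pow, hb, one_pow]
    have h1 := hN₁ n hn1
    have h2 := second_small hn4 hcu (by
      have : (N₂ : ℝ) ≤ n := by exact_mod_cast hn2'
      rw [norm_mul, hbn, mul_one, div_le_iff₀ hn0]
      rw [div_lt_iff₀ ha0] at hN₂
      nlinarith) hM hH
    rw [hfac _ hbn] at h2
    have h3 : ‖b ^ n - v₁‖ * ‖b ^ n - v₂‖ * ‖a‖ < ε * ‖a‖ := by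
      refine lt_of_le_of_lt h2 ?_
      linarith
    exact lt_of_mul_lt_mul_right h3 ha0.le
  · -- `1 < ‖b‖`
    apply (sparse_of_bounded (A := fatDegrees a b) ?_).mono le_rfl (by norm_num)
    obtain ⟨k, hk⟩ := pow_unbounded_of_one_lt (2 / ‖a‖) hb
    refine ⟨k, ?_⟩
    rintro n ⟨hn2, c, hcu, hv⟩
    obtain ⟨hM, hH⟩ := fat_mem hn2 hv
    by_contra hcon
    push Not at hcon
    have h1 := Pool.Agent.LeadMultibrot.norm_pow_le_two hn2 hM
    rw [← norm_pow, hcu, norm_mul, norm_pow] at h1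
    have h2 : ‖b‖ ^ k ≤ ‖b‖ ^ n := pow_le_pow_right₀ hb.le hcon
    rw [div_lt_iff₀ ha0] at hk
    nlinarith

/-- fixed `c`, `‖c‖ ≠ 1`. -/
lemma fatDegreesAt_finite {c : ℂ} (hc : ‖c‖ ≠ 1) : (fatDegreesAt c).Finite := by
  suffices h : ∃ N : ℕ, ∀ n ∈ fatDegreesAt c, n < N by
    obtain ⟨N, hN⟩ := h
    exact (Set.finite_Iio N).subset hN
  rcases lt_or_gt_of_ne hc with h | h
  · have h1 : Tendsto (fun n : ℕ => (n : ℝ) * ‖c‖ ^ n) atTop (nhds 0) :=
      tendsto_self_mul_const_pow_of_lt_one (norm_nonneg _) h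
    obtain ⟨N, hN⟩ := eventually_atTop.mp
      (h1.eventually_lt_const (show (0 : ℝ) < 1 / 16 by norm_num))
    refine ⟨N + 2, ?_⟩
    rintro n ⟨hn2, hv⟩
    obtain ⟨hM, hH⟩ := fat_mem hn2 hv
    by_contra hcon
    push Not at hcon
    have h3 := hN (n - 1) (by omega)
    have hn2r : (2 : ℝ) ≤ n := by exact_mod_cast hn2
    rw [Nat.cast_sub (by omega), Nat.cast_one] at h3
    have h4 : ‖c‖ ^ (n - 1) ≤ 1 / (8 * (n : ℝ)) := by
      rw [le_div_iff₀ (by positivity)]
      have h5 : 0 ≤ ‖c‖ ^ (n - 1) := by positivity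
      nlinarith
    obtain ⟨z, hz, hd⟩ := main_small hn2 h4
    exact hH ⟨z, 1, one_pos, by simpa using hz, by simpa using hd⟩
  · obtain ⟨k, hk⟩ := pow_unbounded_of_one_lt 2 h
    refine ⟨k + 2, ?_⟩
    rintro n ⟨hn2, hv⟩
    obtain ⟨hM, hH⟩ := fat_mem hn2 hv
    by_contra hcon
    push Not at hcon
    have h1 := Pool.Agent.LeadMultibrot.norm_pow_le_two hn2 hM
    have h2 : ‖c‖ ^ k ≤ ‖c‖ ^ (n - 1) := pow_le_pow_right₀ h.le (by omega)
    linarith

/-- one value `u` of `c ^ (n - 1)`. -/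
lemma fatU_bounded' {u : ℂ} (hu : ‖1 + u‖ ≠ 1 ∨ ∃ q : ℕ, 0 < q ∧ (1 + u) ^ q = 1) :
    ∃ N : ℕ, ∀ n ∈ fatU u, n < N := by
  rcases hu with hu | ⟨q, hq, huq⟩
  · exact fatU_bounded_of_ne hu
  · have hp : ‖1 + u‖ = 1 := by
      have : ‖1 + u‖ ^ q = 1 := by rw [← norm_pow, huq, norm_one]
      exact (pow_eq_one_iff_of_nonneg (norm_nonneg _) (by omega)).mp this
    by_cases hu0 : u = 0
    · refine ⟨0, ?_⟩
      rintro n ⟨hn2, c, hcu, hM, hH, hE⟩
      exfalso
      rw [hu0] at hcu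
      have hc : c = 0 := pow_eq_zero_iff (by omega) |>.mp hcu
      apply hH
      rw [hc]
      exact Pool.Agent.LeadMultibrot.hasAttr_zero hn2
    · exact fatU_bounded hu0 hp hq huq

lemma root_or_ne {u : ℂ} (hu : ‖u‖ = 1) : ‖1 + u‖ ≠ 1 ∨ ∃ q : ℕ, 0 < q ∧ (1 + u) ^ q = 1 := by
  by_cases h : ‖1 + u‖ = 1
  · right
    refine ⟨6, by norm_num, ?_⟩
    set u' : ℂ := (starRingEnd ℂ) u with hu'
    have h1 : u * u' = 1 := by
      have := Complex.mul_conj' u
      rw [hu] at this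
      simpa [hu'] using this
    have h2 : (1 + u) * (1 + u') = 1 := by
      have := Complex.mul_conj' (1 + u)
      rw [h] at this
      simpa [hu'] using this
    have h3 : u ^ 2 + u + 1 = 0 := by
      linear_combination u * h2 - (1 + u) * h1
    have h4 : (1 + u) ^ 6 - 1 = (u ^ 2 + u + 1) * (u ^ 4 + 5 * u ^ 3 + 9 * u ^ 2 + 6 * u) := by
      ring
    rw [h3, zero_mul] at h4
    exact sub_eq_zero.mp h4
  · exact Or.inl h

/-- fixed `c`, a root of unity. -/
lemma fatDegreesAt'_finite {c : ℂ} {q : ℕ} (hq : 0 < q) (hcq : c ^ q = 1) :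
    (fatDegreesAt' c).Finite := by
  have hc1 : ‖c‖ = 1 := by
    have : ‖c‖ ^ q = 1 := by rw [← norm_pow, hcq, norm_one]
    exact (pow_eq_one_iff_of_nonneg (norm_nonneg _) (by omega)).mp this
  have hsub : fatDegreesAt' c ⊆ ⋃ r ∈ Finset.range q, fatU (c ^ r) := by
    rintro n ⟨hn2, hv, hne⟩
    obtain ⟨hM, hH⟩ := fat_mem hn2 hv
    rw [Set.mem_iUnion₂]
    refine ⟨(n - 1) % q, Finset.mem_range.mpr (Nat.mod_lt _ hq), hn2, c, ?_, hM, hH,
      fun h => hne (second_fixed hn2 h)⟩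
    conv_lhs => rw [← Nat.div_add_mod (n - 1) q, pow_add, pow_mul, hcq, one_pow, one_mul]
  refine Set.Finite.subset (Set.Finite.biUnion (Finset.range q).finite_toSet ?_) hsub
  intro r _
  obtain ⟨N, hN⟩ := fatU_bounded' (root_or_ne (u := c ^ r) (by rw [norm_pow, hc1, one_pow]))
  exact (Set.finite_Iio N).subset hN

end Pool.Agent.helper69.MB
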